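import Pool.Agent.H519_RV.State

/-!
# The transitions of the execution given by a satisfying assignment
-/

namespace Pool.Agent.H519_RV

open Pool.Agent.NPC Function

variable {K : ℕ} {var : ℕ → ℕ} {sgn : ℕ → Bool}

/-! ### Operations on matchings -/

theorem gr_free {f : ℕ → Option ℕ} {m w : ℕ} (h : f m = none) :
    insert (m, w) (gr f) = gr (update f m (some w)) := by
  ext ⟨a, b⟩
  rw [Set.mem_insert_iff, mem_gr, mem_gr]
  by_cases ha : a = m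
  · subst ha
    rw [update_self, h]
    simp [eq_comm]
  · rw [update_of_ne ha]
    simp [ha]

theorem gr_swapW {f : ℕ → Option ℕ} {m w w' : ℕ} (h : f m = some w') :
    insert (m, w) (gr f \ {(m, w')}) = gr (update f m (some w)) := by
  ext ⟨a, b⟩
  rw [Set.mem_insert_iff, Set.mem_sdiff, mem_gr, mem_gr, Set.mem_singleton_iff]
  by_cases ha : a = m
  · subst ha
    rw [update_self, h]
    simp only [Prod.mk.injEq, true_and, Option.some.injEq]
    constructor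
    · rintro (h | ⟨h, h'⟩)
      · exact h.symm
      · exact absurd h.symm h'
    · intro h
      exact Or.inl h.symm
  · rw [update_of_ne ha]
    simp [ha]

theorem gr_delM {f : ℕ → Option ℕ} {m : ℕ} :
    {q | q ∈ gr f ∧ q.1 ≠ m} = gr (update f m none) := by
  ext ⟨a, b⟩
  rw [mem_gr]
  change (f a = some b ∧ a ≠ m) ↔ _
  by_cases ha : a = m
  · subst ha
    rw [update_self]
    simp
  · rw [update_of_ne ha]
    simp [ha]

theorem gr_delW {f : ℕ → Option ℕ} {w : ℕ} (h : ∀ m, f m ≠ some w) :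
    {q | q ∈ gr f ∧ q.2 ≠ w} = gr f := by
  ext ⟨a, b⟩
  rw [mem_gr]
  change (f a = some b ∧ b ≠ w) ↔ _
  constructor
  · exact fun h => h.1
  · intro h'
    refine ⟨h', ?_⟩
    rintro rfl
    exact h _ h'

/-- Step 2 with a single woman. -/
theorem gr_two {f : ℕ → Option ℕ} {m w : ℕ} (h : ∀ m', f m' ≠ some w) :
    insert (m, w) {q | q ∈ gr f ∧ q.1 ≠ m ∧ q.2 ≠ w} = gr (update f m (some w)) := by
  ext ⟨a, b⟩
  rw [Set.mem_insert_iff, mem_gr]
  change ((a, b) = (m, w) ∨ (f a = some b ∧ a ≠ m ∧ b ≠ w)) ↔ _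
  by_cases ha : a = m
  · subst ha
    rw [update_self]
    simp [eq_comm]
  · rw [update_of_ne ha]
    constructor
    · rintro (h1 | h1)
      · exact absurd (Prod.mk.inj h1).1 ha
      · exact h1.1
    · intro h1
      refine Or.inr ⟨h1, ha, ?_⟩
      rintro rfl
      exact h _ h1

/-- Step 2 with a woman who leaves the man `c`. -/
theorem gr_two' {f : ℕ → Option ℕ} {m w c : ℕ} (hcw : f c = some w)
    (h : ∀ m', f m' = some w → m' = c) :
    insert (m, w) {q | q ∈ gr f ∧ q.1 ≠ m ∧ q.2 ≠ w} =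
      gr (update (update f c none) m (some w)) := by
  ext ⟨a, b⟩
  rw [Set.mem_insert_iff, mem_gr]
  change ((a, b) = (m, w) ∨ (f a = some b ∧ a ≠ m ∧ b ≠ w)) ↔ _
  by_cases ha : a = m
  · subst ha
    rw [update_self]
    simp [eq_comm]
  · rw [update_of_ne ha]
    by_cases hac : a = c
    · subst hac
      rw [update_self, hcw]
      simp only [Prod.mk.injEq, ha, false_and, false_or, Option.some.injEq, reduceCtorEq,
        iff_false]
      rintro ⟨h1, _, h2⟩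
      exact h2 h1.symm
    · rw [update_of_ne hac]
      constructor
      · rintro (h1 | h1)
        · exact absurd (Prod.mk.inj h1).1 ha
        · exact h1.1
      · intro h1
        refine Or.inr ⟨h1, ha, ?_⟩
        rintro rfl
        exact hac (h _ h1)

theorem blocksIn_of {S : Set Person} {M : Set (ℕ × ℕ)} {m w : ℕ} (h1 : Sum.inl m ∈ S)
    (h2 : Sum.inr w ∈ S) (hb : Blocks (inst K var sgn) M m w) :
    BlocksIn (inst K var sgn) S M m w :=
  ⟨h1, h2, hb.1, hb.2.1, fun h => hb.2.2.1 h.1, fun w' h => hb.2.2.2.1 w' h.1,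
    fun m' h => hb.2.2.2.2 m' h.1⟩

theorem bprefM {S : Set Person} {f : ℕ → Option ℕ} {m w w' : ℕ}
    (hb : BlocksIn (inst K var sgn) S (gr f) m w) (h : f m = some w') (hw' : Sum.inr w' ∈ S) :
    MPref (inst K var sgn) m w w' := hb.2.2.2.2.2.1 w' (mem_res.2 ⟨h, hb.1, hw'⟩)

theorem bprefW {S : Set Person} {f : ℕ → Option ℕ} {m m' w : ℕ}
    (hb : BlocksIn (inst K var sgn) S (gr f) m w) (h : f m' = some w) (hm' : Sum.inl m' ∈ S) :
    WPref (inst K var sgn) w m m' := hb.2.2.2.2.2.2 m' (mem_res.2 ⟨h, hm', hb.2.1⟩)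

/-! ### The men and women in `S` are content -/

theorem man_ok {s : St} (hs : Nest s) (hX : s.XA ⊆ s.XB) (hY : s.YA ⊆ s.YB) {m : ℕ}
    (hm : Sum.inl m ∈ SS K s) : ∃ w', F K s m = some w' ∧ Sum.inr w' ∈ SS K s ∧
      ∀ w, MPref (inst K var sgn) m w w' → ∃ j < K, m = K + j ∧ w = j ∧ j ∉ s.D := by
  classical
  rw [inlS] at hm
  rcases kinds (inS_lt hm) with ⟨j, hj, rfl⟩ | ⟨j, hj, rfl⟩ | ⟨j, hj, rfl⟩ | ⟨x, hx, rfl⟩ |
    ⟨x, hx, rfl⟩
  · rw [inS_c hj] at hm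
    refine ⟨K + m, by rw [F_c hj, if_pos hm], ?_, fun w h => (up_ct hj h).elim⟩
    rw [inrS, inS_g hj]
    exact hs.2 (hs.1 hm)
  · rw [inS_g hj] at hm
    by_cases hd : j ∈ s.D
    · refine ⟨j, by rw [F_g hj, if_pos hd], ?_, fun w h => (up_gt hj h).elim⟩
      rw [inrS, inS_c hj]
      exact hd
    · refine ⟨K + j, by rw [F_g hj, if_neg hd, if_pos hm], ?_, fun w h => ?_⟩
      · rw [inrS, inS_g hj]
        exact hm
      · exact ⟨j, hj, rfl, up_g' hj h, hd⟩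
  · rw [inS_k hj] at hm
    refine ⟨2 * K + j, by rw [F_k hj, if_pos hm], ?_, fun w h => (up_kt hj h).elim⟩
    rw [inrS, inS_k hj]
    exact hm
  · rw [inS_a hx] at hm
    refine ⟨3 * K + x, by rw [F_a hx, if_pos ⟨hm, hX hm⟩], ?_, fun w h => (up_a hx h).elim⟩
    rw [inrS, inS_a hx]
    exact hX hm
  · rw [inS_al hx] at hm
    refine ⟨6 * K + x, by rw [F_al hx, if_pos ⟨fun _ => hY hm, fun _ => hm⟩], ?_,
      fun w h => (up_al hx h).elim⟩
    rw [inrS, inS_al hx]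
    exact hY hm

theorem no_block_man {s : St} (hs : Nest s) (hX : s.XA ⊆ s.XB) (hY : s.YA ⊆ s.YB) {m w : ℕ}
    (hm : Sum.inl m ∈ SS K s) : ¬ Blocks (inst K var sgn) (gr (F K s)) m w := by
  classical
  intro hb
  obtain ⟨w', h1, _, h2⟩ := man_ok (var := var) (sgn := sgn) hs hX hY hm
  obtain ⟨j, hj, rfl, rfl, hd⟩ := h2 w (hb.2.2.2.1 w' h1)
  exact up_d hj (hb.2.2.2.2 w (by rw [mem_gr, F_c hj, if_neg hd]))

theorem no_blockIn_high {s : St} (hs : Nest s) (hX : s.XA ⊆ s.XB) (hY : s.YA ⊆ s.YB) {w : ℕ}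
    (hw : 3 * K ≤ w) (m : ℕ) : ¬ BlocksIn (inst K var sgn) (SS K s) (gr (F K s)) m w := by
  intro hb
  obtain ⟨w', h1, h2, h3⟩ := man_ok (var := var) (sgn := sgn) hs hX hY hb.1
  obtain ⟨j, hj, _, h4, _⟩ := h3 w (bprefM hb h1 h2)
  omega

theorem woman_ok {s : St} (hs : Nest s) (hX : s.XB ⊆ s.XA) (hY : s.YB ⊆ s.YA)
    (hYX : s.YB ⊆ s.XA) {w : ℕ} (hw : Sum.inr w ∈ SS K s) : ∃ m', F K s m' = some w ∧
      ∀ m, WPref (inst K var sgn) w m m' → Sum.inl m ∈ SS K s := by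
  classical
  rw [inrS] at hw
  rcases kinds (inS_lt hw) with ⟨j, hj, rfl⟩ | ⟨j, hj, rfl⟩ | ⟨j, hj, rfl⟩ | ⟨x, hx, rfl⟩ |
    ⟨x, hx, rfl⟩
  · rw [inS_c hj] at hw
    refine ⟨K + w, by rw [F_g hj, if_pos hw], fun m h => ?_⟩
    rw [up_d' hj h, inlS, inS_c hj]
    exact hw
  · rw [inS_g hj] at hw
    by_cases hd : j ∈ s.D
    · refine ⟨j, by rw [F_c hj, if_pos hd], fun m h => ?_⟩
      rcases up_h' hj h with rfl | rfl
      · rw [inlS, inS_g hj]
        exact hw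
      · rw [inlS, inS_k hj]
        exact hs.1 hd
    · exact ⟨K + j, by rw [F_g hj, if_neg hd, if_pos hw], fun m h => (up_ht hj h).elim⟩
  · rw [inS_k hj] at hw
    refine ⟨2 * K + j, by rw [F_k hj, if_pos hw], fun m h => ?_⟩
    rw [up_l' hj h, inlS, inS_g hj]
    exact hs.2 hw
  · rw [inS_a hx] at hw
    exact ⟨3 * K + x, by rw [F_a hx, if_pos ⟨hX hw, hw⟩], fun m h => (up_b hx h).elim⟩
  · rw [inS_al hx] at hw
    refine ⟨6 * K + x, by rw [F_al hx, if_pos ⟨fun _ => hw, fun _ => hY hw⟩], fun m h => ?_⟩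
    rw [up_be hx h, inlS, inS_a hx]
    exact hYX hw

/-- In a closed state, blocking pairs are outside `S`. -/
theorem closed_no {s : St} (hs : Nest s) (hX : s.XA = s.XB) (hY : s.YA = s.YB)
    (hYX : s.YB ⊆ s.XA) (m w : ℕ) (hb : Blocks (inst K var sgn) (gr (F K s)) m w) :
    (Sum.inl m ∈ SS K s ↔ Sum.inr w ∈ SS K s) := by
  have h1 : Sum.inl m ∉ SS K s := fun h => no_block_man hs hX.subset hY.subset h hb
  have h2 : Sum.inr w ∉ SS K s := by
    intro h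
    obtain ⟨m', h3, h4⟩ := woman_ok (var := var) (sgn := sgn) hs hX.symm.subset hY.symm.subset
      hYX h
    exact h1 (h4 m (hb.2.2.2.2 m' h3))
  exact ⟨fun h => absurd h h1, fun h => absurd h h2⟩

/-! ### Changes of the parameters -/

theorem ext_men {f g : ℕ → Option ℕ} (h0 : ∀ m, ¬ m < 9 * K → f m = g m)
    (h1 : ∀ j < K, f j = g j) (h2 : ∀ j < K, f (K + j) = g (K + j))
    (h3 : ∀ j < K, f (2 * K + j) = g (2 * K + j)) (h4 : ∀ x < 3 * K, f (3 * K + x) = g (3 * K + x))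
    (h5 : ∀ x < 3 * K, f (6 * K + x) = g (6 * K + x)) : f = g := by
  funext m
  by_cases hm : m < 9 * K
  · rcases kinds hm with ⟨j, hj, rfl⟩ | ⟨j, hj, rfl⟩ | ⟨j, hj, rfl⟩ | ⟨x, hx, rfl⟩ | ⟨x, hx, rfl⟩
    · exact h1 _ hj
    · exact h2 _ hj
    · exact h3 _ hj
    · exact h4 _ hx
    · exact h5 _ hx
  · exact h0 m hm

theorem ext_S {S S' : Set Person} (h0 : ∀ m, ¬ m < 9 * K → (Sum.inl m ∈ S ↔ Sum.inl m ∈ S') ∧
      (Sum.inr m ∈ S ↔ Sum.inr m ∈ S'))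
    (h1 : ∀ j < K, (Sum.inl j ∈ S ↔ Sum.inl j ∈ S') ∧ (Sum.inr j ∈ S ↔ Sum.inr j ∈ S'))
    (h2 : ∀ j < K, (Sum.inl (K + j) ∈ S ↔ Sum.inl (K + j) ∈ S') ∧
      (Sum.inr (K + j) ∈ S ↔ Sum.inr (K + j) ∈ S'))
    (h3 : ∀ j < K, (Sum.inl (2 * K + j) ∈ S ↔ Sum.inl (2 * K + j) ∈ S') ∧
      (Sum.inr (2 * K + j) ∈ S ↔ Sum.inr (2 * K + j) ∈ S'))
    (h4 : ∀ x < 3 * K, (Sum.inl (3 * K + x) ∈ S ↔ Sum.inl (3 * K + x) ∈ S') ∧
      (Sum.inr (3 * K + x) ∈ S ↔ Sum.inr (3 * K + x) ∈ S'))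
    (h5 : ∀ x < 3 * K, (Sum.inl (6 * K + x) ∈ S ↔ Sum.inl (6 * K + x) ∈ S') ∧
      (Sum.inr (6 * K + x) ∈ S ↔ Sum.inr (6 * K + x) ∈ S')) : S = S' := by
  have key : ∀ m, (Sum.inl m ∈ S ↔ Sum.inl m ∈ S') ∧ (Sum.inr m ∈ S ↔ Sum.inr m ∈ S') := by
    intro m
    by_cases hm : m < 9 * K
    · rcases kinds hm with ⟨j, hj, rfl⟩ | ⟨j, hj, rfl⟩ | ⟨j, hj, rfl⟩ | ⟨x, hx, rfl⟩ | ⟨x, hx, rfl⟩
      · exact h1 _ hj
      · exact h2 _ hj
      · exact h3 _ hj
      · exact h4 _ hx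
      · exact h5 _ hx
    · exact h0 m hm
  ext p
  cases p with
  | inl m => exact (key m).1
  | inr w => exact (key w).2

end Pool.Agent.H519_RV
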