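import Pool.Agent.H519_RV.Exec

/-!
# The execution given by a satisfying assignment, composed
-/

namespace Pool.Agent.H519_RV

open Pool.Agent.NPC Function Relation

variable {K : ℕ} {var : ℕ → ℕ} {sgn : ℕ → Bool}

theorem ins_lt (t : ℕ) : insert t {i | i < t} = {i | i < t + 1} := by
  ext i
  simp only [Set.mem_insert_iff, Set.mem_ofPred_eq]
  omega

/-- The state with the set `D` replaced. -/
def withD (s : St) (D : Set ℕ) : St := { s with D := D }

theorem G_high {s : St} {D : Set ℕ} {y : ℕ} (hy : 3 * K ≤ y) : G K (withD s D) y = G K s y := by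
  unfold G
  rw [if_neg (by omega), if_neg (by omega), if_neg (by omega), if_neg (by omega : ¬ y < K),
    if_neg (by omega : ¬ y < 2 * K), if_neg (by omega : ¬ y < 3 * K)]
  rfl

theorem S_high {s : St} {D : Set ℕ} {y : ℕ} (hy : 3 * K ≤ y) :
    Sum.inr y ∈ SS K (withD s D) ↔ Sum.inr y ∈ SS K s := by
  rw [inrS, inrS]
  unfold inS
  rw [if_neg (by omega), if_neg (by omega), if_neg (by omega), if_neg (by omega : ¬ y < K),
    if_neg (by omega : ¬ y < 2 * K), if_neg (by omega : ¬ y < 3 * K)]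
  rfl

theorem Op.withD {s : St} {y : ℕ} (hs : Op K s y) {D : Set ℕ} (hD : D ⊆ s.A2) :
    Op K (withD s D) y where
  nest := ⟨hD, hs.nest.2⟩
  hX := hs.hX
  hY := hs.hY
  un := by rw [G_high hs.ge]; exact hs.un
  mem := (S_high hs.ge).2 hs.mem
  ge := hs.ge
  lt := hs.lt
  oX := hs.oX
  oY := hs.oY

theorem loop {s : St} {y : ℕ} (hs : Op K s y) (hvar : ∀ o < 3 * K, var o < 3 * K) (Q : ℕ → Prop)
    (r : ℕ → ℕ) (hQ : ∀ j, Q j → j < K ∧ r j < 3 ∧ y = lw K var sgn (3 * j + r j))
    (hA : ∀ j < K, j ∈ s.A2) (t : ℕ) :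
    ReflTransGen (Step (inst K var sgn)) (st K s) (st K (withD s (s.D ∪ {j | j < t ∧ Q j}))) := by
  have hA1 : ∀ j < K, j ∈ s.A1 := fun j hj => hs.nest.2 (hA j hj)
  induction t with
  | zero =>
    have : s.D ∪ {j | j < 0 ∧ Q j} = s.D := by
      ext j
      simp
    rw [this]
    exact ReflTransGen.refl
  | succ t ih =>
    by_cases hq : Q t ∧ t ∉ s.D
    · obtain ⟨hq1, hq2⟩ := hq
      obtain ⟨hj, hr, hy⟩ := hQ t hq1
      have hsub : s.D ∪ {j | j < t ∧ Q j} ⊆ s.A2 := by
        rintro j (h | h)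
        · exact hs.nest.1 h
        · exact hA j (hQ j h.2).1
      have hop := hs.withD hsub
      have hnD : t ∉ (withD s (s.D ∪ {j | j < t ∧ Q j})).D := by
        rintro (h | h)
        · exact hq2 h
        · exact absurd h.1 (lt_irrefl t)
      have h1 := stepC (var := var) (sgn := sgn) hj hr hvar hop hy (hA1 t hj) hnD
      have h2 := stepD hj hr hop.nest hop.hX hop.hY hop.un hop.mem hop.ge hop.lt hy (hA t hj) hnD
      have e : s.D ∪ {j | j < t + 1 ∧ Q j} = insert t (s.D ∪ {j | j < t ∧ Q j}) := by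
        ext j
        simp only [Set.mem_union, Set.mem_ofPred_eq, Set.mem_insert_iff]
        constructor
        · rintro (h | ⟨h, h'⟩)
          · exact Or.inr (Or.inl h)
          · rcases Nat.lt_succ_iff_lt_or_eq.1 h with h | h
            · exact Or.inr (Or.inr ⟨h, h'⟩)
            · exact Or.inl h
        · rintro (h | h | h)
          · subst h
            exact Or.inr ⟨by omega, hq1⟩
          · exact Or.inl h
          · exact Or.inr ⟨by omega, h.2⟩
      rw [e]
      exact (ih.tail h1).tail h2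
    · have e : s.D ∪ {j | j < t + 1 ∧ Q j} = s.D ∪ {j | j < t ∧ Q j} := by
        ext j
        simp only [Set.mem_union, Set.mem_ofPred_eq]
        constructor
        · rintro (h | ⟨h, h'⟩)
          · exact Or.inl h
          · rcases Nat.lt_succ_iff_lt_or_eq.1 h with h | h
            · exact Or.inr ⟨h, h'⟩
            · subst h
              by_contra hc
              exact hq ⟨h', fun h => hc (Or.inl h)⟩
        · rintro (h | h)
          · exact Or.inl h
          · exact Or.inr ⟨by omega, h.2⟩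
      rw [e]
      exact ih

/-! ### Phase 0 -/

/-- The states of phase 0. -/
def ph0 (a b : ℕ) : St where
  A1 := {i | i < a}
  A2 := {i | i < b}
  D := ∅
  XA := ∅
  XB := ∅
  YA := ∅
  YB := ∅

theorem closed_ph0 {a b : ℕ} (h : b ≤ a) : Closed (ph0 a b) where
  nest := ⟨Set.empty_subset _, fun i (hi : i < b) => (by exact lt_of_lt_of_le hi h : i < a)⟩
  hX := rfl
  hY := rfl
  hYX := Set.empty_subset _

theorem phase0 {t : ℕ} (ht : t ≤ K) :
    ReflTransGen (Step (inst K var sgn)) (st K (ph0 0 0)) (st K (ph0 t t)) := by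
  induction t with
  | zero => exact ReflTransGen.refl
  | succ t ih =>
    have h1 := stepA (K := K) (var := var) (sgn := sgn) (closed_ph0 (le_refl t)) (j := t) (by omega)
      (show ¬ t < t from lt_irrefl t)
    have e1 : ({ ph0 t t with A1 := insert t (ph0 t t).A1 } : St) = ph0 (t + 1) t := by
      unfold ph0
      simp only [ins_lt]
    rw [e1] at h1
    have h2 := stepB (K := K) (var := var) (sgn := sgn) (closed_ph0 (Nat.le_succ t)) (j := t) (by omega)
      (show t < t + 1 from Nat.lt_succ_self t) (show ¬ t < t from lt_irrefl t)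
    have e2 : ({ ph0 (t + 1) t with A2 := insert t (ph0 (t + 1) t).A2 } : St) =
        ph0 (t + 1) (t + 1) := by
      unfold ph0
      simp only [ins_lt]
    rw [e2] at h2
    exact ((ih (by omega)).tail h1).tail h2

/-! ### Variables -/

/-- The state after the variables below `x` have been treated. -/
def sv (K : ℕ) (v : ℕ → ℕ) (T : ℕ → Prop) (x : ℕ) : St where
  A1 := {j | j < K}
  A2 := {j | j < K}
  D := {j | j < K ∧ v j < x}
  XA := {i | i < x}
  XB := {i | i < x}
  YA := {i | i < x ∧ T i}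
  YB := {i | i < x ∧ T i}

theorem closed_sv {v : ℕ → ℕ} {T : ℕ → Prop} {x : ℕ} : Closed (sv K v T x) where
  nest := ⟨fun _ h => h.1, fun _ h => h⟩
  hX := rfl
  hY := rfl
  hYX := fun _ h => h.1

theorem ins_T {T : ℕ → Prop} {x : ℕ} (h : T x) :
    insert x {i | i < x ∧ T i} = {i | i < x + 1 ∧ T i} := by
  ext i
  simp only [Set.mem_insert_iff, Set.mem_ofPred_eq]
  constructor
  · rintro (rfl | h')
    · exact ⟨by omega, h⟩
    · exact ⟨by omega, h'.2⟩
  · rintro ⟨h1, h2⟩
    rcases Nat.lt_succ_iff_lt_or_eq.1 h1 with h | h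
    · exact Or.inr ⟨h, h2⟩
    · exact Or.inl h

theorem same_T {T : ℕ → Prop} {x : ℕ} (h : ¬ T x) :
    {i | i < x ∧ T i} = {i | i < x + 1 ∧ T i} := by
  ext i
  simp only [Set.mem_ofPred_eq]
  constructor
  · rintro h'
    exact ⟨by omega, h'.2⟩
  · rintro ⟨h1, h2⟩
    rcases Nat.lt_succ_iff_lt_or_eq.1 h1 with h' | h'
    · exact ⟨h', h2⟩
    · subst h'
      exact absurd h2 h

theorem caseT {v r : ℕ → ℕ} {T : ℕ → Prop} {x : ℕ} (hx : x < 3 * K)
    (hvar : ∀ o < 3 * K, var o < 3 * K) (hr : ∀ j < K, r j < 3)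
    (hv : ∀ j < K, v j = var (3 * j + r j)) (hT : T x)
    (hs : ∀ j < K, v j = x → sgn (3 * j + r j) = true) :
    ReflTransGen (Step (inst K var sgn)) (st K (sv K v T x)) (st K (sv K v T (x + 1))) := by
  have h0 : ∀ P : Prop, ¬ (x < x ∧ P) := fun P h => lt_irrefl x h.1
  have h1 := stepT (var := var) (sgn := sgn) (closed_sv (K := K) (v := v) (T := T) (x := x)) hx
    (show ¬ x < x from lt_irrefl x) (h0 _)
  set s1 : St := { sv K v T x with
    XA := insert x (sv K v T x).XA
    XB := insert x (sv K v T x).XB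
    YB := insert x (sv K v T x).YB } with hs1
  have nYA : x ∉ s1.YA := h0 _
  have mYB : x ∈ s1.YB := Set.mem_insert _ _
  have hop : Op K s1 (6 * K + x) := by
    refine ⟨(closed_sv (K := K) (v := v) (T := T) (x := x)).nest, subset_rfl, Set.subset_insert _ _, ?_, ?_, by omega, by omega,
      fun _ _ h _ => h, ?_⟩
    · rw [G_al hx, if_neg]
      intro h
      exact nYA (h.2 mYB)
    · rw [inrS, inS_al hx]
      exact mYB
    · intro x' _ h h'
      rcases h with h | h
      · exact absurd (by rw [h]) h'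
      · exact h
  have h2 := loop (var := var) (sgn := sgn) hop hvar (fun j => j < K ∧ v j = x) r
    (fun j hj => ⟨hj.1, hr j hj.1, ?_⟩) (fun j hj => hj) K
  swap
  · unfold lw
    rw [if_pos (hs j hj.1 hj.2), ← hv j hj.1, hj.2]
  set s2 : St := withD s1 (s1.D ∪ {j | j < K ∧ (j < K ∧ v j = x)}) with hs2
  have hop2 : Op K s2 (6 * K + x) := by
    refine hop.withD ?_
    rintro j (h | h)
    · exact h.1
    · exact h.1
  have h3 : Step (inst K var sgn) (st K s2) (st K { s2 with YA := insert x s2.YA }) := by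
    refine step_last (m := 6 * K + x) (by omega) hop2.nest hop2.un ?_ hop2.mem ?_
      (fun w => up_al hx) (F_YA s2 hx mYB) (SS_YA s2 hx)
    · rw [F_al hx, if_neg]
      intro h
      exact nYA (h.2 mYB)
    · rw [inlS, inS_al hx]
      exact nYA
  have e : ({ s2 with YA := insert x s2.YA } : St) = sv K v T (x + 1) := by
    have e1 : s1.D ∪ {j | j < K ∧ (j < K ∧ v j = x)} = {j | j < K ∧ v j < x + 1} := by
      ext j
      change ((j < K ∧ v j < x) ∨ (j < K ∧ (j < K ∧ v j = x))) ↔ (j < K ∧ v j < x + 1)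
      omega
    rw [hs2]
    unfold withD
    simp only [e1]
    unfold sv
    simp only [hs1, sv, ins_lt, ins_T hT]
  rw [e] at h3
  exact (h1.trans h2).tail h3

theorem caseF {v r : ℕ → ℕ} {T : ℕ → Prop} {x j₀ : ℕ} (hx : x < 3 * K)
    (hvar : ∀ o < 3 * K, var o < 3 * K) (hr : ∀ j < K, r j < 3)
    (hv : ∀ j < K, v j = var (3 * j + r j)) (hT : ¬ T x)
    (hs : ∀ j < K, v j = x → ¬ sgn (3 * j + r j) = true) (hj₀ : j₀ < K) (hvj : v j₀ = x) :
    ReflTransGen (Step (inst K var sgn)) (st K (sv K v T x)) (st K (sv K v T (x + 1))) := by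
  have hlw : ∀ j < K, v j = x → 3 * K + x = lw K var sgn (3 * j + r j) := by
    intro j hj hjx
    unfold lw
    rw [if_neg (hs j hj hjx), ← hv j hj, hjx]
  have nXA : x ∉ (sv K v T x).XA := (show ¬ x < x from lt_irrefl x)
  have nD : j₀ ∉ (sv K v T x).D := by
    rintro ⟨_, h⟩
    omega
  have h1 := stepF0 (closed_sv (K := K) (v := v) (T := T) (x := x)) hj₀ (hr j₀ hj₀)
    (hlw j₀ hj₀ hvj) hx nXA nD
  set s1 : St := { sv K v T x with XB := insert x (sv K v T x).XB } with hs1
  have mXB : x ∈ s1.XB := Set.mem_insert _ _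
  have hop : Op K s1 (3 * K + x) := by
    refine ⟨(closed_sv (K := K) (v := v) (T := T) (x := x)).nest, Set.subset_insert _ _, subset_rfl, ?_, ?_, by omega, by omega,
      ?_, fun _ _ h _ => h⟩
    · rw [G_a hx, if_neg]
      intro h
      exact nXA h.1
    · rw [inrS, inS_a hx]
      exact mXB
    · intro x' _ h h'
      rcases h with h | h
      · exact absurd (by rw [h]) h'
      · exact h
  have h2 := stepD hj₀ (hr j₀ hj₀) hop.nest hop.hX hop.hY hop.un hop.mem hop.ge hop.lt
    (hlw j₀ hj₀ hvj) (show j₀ ∈ s1.A2 from hj₀) nD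
  have hop2 : Op K (withD s1 (insert j₀ s1.D)) (3 * K + x) := by
    refine hop.withD ?_
    rintro j (h | h)
    · rw [h]
      exact hj₀
    · exact h.1
  have h3 := loop (var := var) (sgn := sgn) hop2 hvar (fun j => j < K ∧ v j = x) r
    (fun j hj => ⟨hj.1, hr j hj.1, hlw j hj.1 hj.2⟩) (fun j hj => hj) K
  set s3 : St := withD (withD s1 (insert j₀ s1.D))
    ((withD s1 (insert j₀ s1.D)).D ∪ {j | j < K ∧ (j < K ∧ v j = x)}) with hs3
  have hop3 : Op K s3 (3 * K + x) := by
    refine hop2.withD ?_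
    rintro j ((h | h) | h)
    · rw [h]
      exact hj₀
    · exact h.1
    · exact h.1
  have h4 : Step (inst K var sgn) (st K s3) (st K { s3 with XA := insert x s3.XA }) := by
    refine step_last (m := 3 * K + x) (by omega) hop3.nest hop3.un ?_ hop3.mem ?_
      (fun w => up_a hx) (F_XA s3 hx mXB) (SS_XA s3 hx)
    · rw [F_a hx, if_neg]
      intro h
      exact nXA h.1
    · rw [inlS, inS_a hx]
      exact nXA
  have e : ({ s3 with XA := insert x s3.XA } : St) = sv K v T (x + 1) := by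
    have e1 : (withD s1 (insert j₀ s1.D)).D ∪ {j | j < K ∧ (j < K ∧ v j = x)} =
        {j | j < K ∧ v j < x + 1} := by
      ext j
      change ((j = j₀ ∨ (j < K ∧ v j < x)) ∨ (j < K ∧ (j < K ∧ v j = x))) ↔
        (j < K ∧ v j < x + 1)
      constructor
      · rintro ((h | h) | h)
        · subst h
          exact ⟨hj₀, by omega⟩
        · exact ⟨h.1, by omega⟩
        · exact ⟨h.1, by omega⟩
      · rintro ⟨h, h'⟩
        by_cases hc : v j < x
        · exact Or.inl (Or.inr ⟨h, hc⟩)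
        · exact Or.inr ⟨h, h, by omega⟩
    rw [hs3, e1]
    unfold withD
    unfold sv
    simp only [hs1, sv, ins_lt, same_T hT]
  rw [e] at h4
  exact ((((ReflTransGen.refl.tail h1).tail h2).trans h3)).tail h4

theorem vars {v r : ℕ → ℕ} {τ : ℕ → Bool} (hvar : ∀ o < 3 * K, var o < 3 * K)
    (hr : ∀ j < K, r j < 3) (hv : ∀ j < K, v j = var (3 * j + r j))
    (hτ : ∀ j < K, τ (v j) = sgn (3 * j + r j)) {x : ℕ} (hx : x ≤ 3 * K) :
    ReflTransGen (Step (inst K var sgn))
      (st K (sv K v (fun i => ¬ ∃ j < K, v j = i ∧ ¬ sgn (3 * j + r j) = true) 0))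
      (st K (sv K v (fun i => ¬ ∃ j < K, v j = i ∧ ¬ sgn (3 * j + r j) = true) x)) := by
  induction x with
  | zero => exact ReflTransGen.refl
  | succ x ih =>
    refine (ih (by omega)).trans ?_
    by_cases hT : ∃ j < K, v j = x ∧ ¬ sgn (3 * j + r j) = true
    · obtain ⟨j₀, hj₀, hvj, hsj⟩ := hT
      refine caseF (by omega) hvar hr hv (not_not.2 ⟨j₀, hj₀, hvj, hsj⟩) ?_ hj₀ hvj
      intro j hj hjx
      rw [← hτ j hj, hjx, ← hvj, hτ j₀ hj₀]
      exact hsj
    · refine caseT (by omega) hvar hr hv hT ?_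
      intro j hj hjx
      by_contra hc
      exact hT ⟨j, hj, hjx, hc⟩

theorem start_eq : gr (F K (ph0 0 0)) = M₀ K := by
  classical
  ext ⟨m, w⟩
  rw [mem_gr]
  simp only [M₀, Set.mem_ofPred_eq]
  by_cases hm : m < 9 * K
  · have h0 : ∀ i : ℕ, i ∉ ({i | i < 0} : Set ℕ) := fun i hi => absurd hi (Nat.not_lt_zero i)
    rcases kinds hm with ⟨j, hj, rfl⟩ | ⟨j, hj, rfl⟩ | ⟨j, hj, rfl⟩ | ⟨x, hx, rfl⟩ |
      ⟨x, hx, rfl⟩
    · rw [F_c hj, if_neg (show m ∉ (ph0 0 0).D from fun h => h), Option.some.injEq]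
      omega
    · rw [F_g hj, if_neg (show j ∉ (ph0 0 0).D from fun h => h),
        if_neg (show j ∉ (ph0 0 0).A1 from h0 j), Option.some.injEq]
      omega
    · rw [F_k hj, if_neg (show j ∉ (ph0 0 0).A2 from h0 j),
        if_neg (show j ∉ (ph0 0 0).A1 from h0 j), Option.some.injEq]
      omega
    · rw [F_a hx, if_neg (fun h : x ∈ (ph0 0 0).XA ∧ x ∈ (ph0 0 0).XB => h.1)]
      constructor
      · intro h
        simp at h
      · intro h
        omega
    · rw [F_al hx, if_pos (show x ∈ (ph0 0 0).YA ↔ x ∈ (ph0 0 0).YB from Iff.rfl),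
        Option.some.injEq]
      omega
  · rw [F_out hm]
    constructor
    · intro h
      simp at h
    · intro h
      omega

theorem startS : SS K (ph0 0 0) = ∅ := by
  have h0 : ∀ i : ℕ, i ∉ ({i | i < 0} : Set ℕ) := fun i hi => absurd hi (Nat.not_lt_zero i)
  refine ext_S (K := K) ?_ ?_ ?_ ?_ ?_ ?_
  · intro m hm
    simp [outl hm, outr hm]
  · intro i hi
    rw [inlS, inrS, inS_c hi, inS_c hi]
    simp [ph0]
  · intro i hi
    rw [inlS, inrS, inS_g hi, inS_g hi]
    simp [ph0]
  · intro i hi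
    rw [inlS, inrS, inS_k hi, inS_k hi]
    simp [ph0]
  · intro i hi
    rw [inlS, inrS, inS_a hi, inS_a hi]
    simp [ph0]
  · intro i hi
    rw [inlS, inrS, inS_al hi, inS_al hi]
    simp [ph0]

theorem mid_eq {v : ℕ → ℕ} {T : ℕ → Prop} : ph0 K K = sv K v T 0 := by
  unfold ph0 sv
  congr 1
  · ext j; simp
  · ext j; simp
  · ext j; simp
  · ext j; simp
  · ext j; simp

theorem end_eq {v : ℕ → ℕ} {T : ℕ → Prop} (hv : ∀ j < K, v j < 3 * K) :
    gr (F K (sv K v T (3 * K))) = M₁ K := by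
  classical
  ext ⟨m, w⟩
  rw [mem_gr]
  simp only [M₁, Set.mem_ofPred_eq]
  by_cases hm : m < 9 * K
  · rcases kinds hm with ⟨j, hj, rfl⟩ | ⟨j, hj, rfl⟩ | ⟨j, hj, rfl⟩ | ⟨x, hx, rfl⟩ |
      ⟨x, hx, rfl⟩
    · rw [F_c hj, if_pos (show m ∈ (sv K v T (3 * K)).D from ⟨hj, hv m hj⟩), Option.some.injEq]
      omega
    · rw [F_g hj, if_pos (show j ∈ (sv K v T (3 * K)).D from ⟨hj, hv j hj⟩), Option.some.injEq]
      omega
    · rw [F_k hj, if_pos (show j ∈ (sv K v T (3 * K)).A2 from hj), Option.some.injEq]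
      omega
    · rw [F_a hx, if_pos (show x ∈ (sv K v T (3 * K)).XA ∧ x ∈ (sv K v T (3 * K)).XB from
        ⟨hx, hx⟩), Option.some.injEq]
      omega
    · rw [F_al hx, if_pos (show x ∈ (sv K v T (3 * K)).YA ↔ x ∈ (sv K v T (3 * K)).YB from
        Iff.rfl), Option.some.injEq]
      omega
  · rw [F_out hm]
    constructor
    · intro h
      simp at h
    · intro h
      omega

/-- A satisfying assignment gives an execution that ends with the target matching. -/
theorem path_of_sat (hvar : ∀ o < 3 * K, var o < 3 * K)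
    (h : ∃ τ : ℕ → Bool, ∀ j < K, ∃ r < 3, τ (var (3 * j + r)) = sgn (3 * j + r)) :
    ∃ S, ReflTransGen (Step (inst K var sgn)) (M₀ K, ∅) (M₁ K, S) := by
  classical
  obtain ⟨τ, hτ⟩ := h
  have hch : ∀ j, ∃ r, j < K → (r < 3 ∧ τ (var (3 * j + r)) = sgn (3 * j + r)) := by
    intro j
    by_cases hj : j < K
    · obtain ⟨r, hr, h⟩ := hτ j hj
      exact ⟨r, fun _ => ⟨hr, h⟩⟩
    · exact ⟨0, fun h => absurd h hj⟩
  choose r hr using hch
  set v : ℕ → ℕ := fun j => var (3 * j + r j) with hv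
  have hvlt : ∀ j < K, v j < 3 * K := fun j hj => hvar _ (by have := (hr j hj).1; omega)
  have h1 := phase0 (var := var) (sgn := sgn) (le_refl K)
  have h2 := vars (v := v) (r := r) (τ := τ) hvar (fun j hj => (hr j hj).1) (fun j _ => rfl)
    (fun j hj => (hr j hj).2) (le_refl (3 * K))
  rw [← mid_eq] at h2
  have h3 := h1.trans h2
  unfold st at h3
  rw [start_eq, startS, end_eq hvlt] at h3
  exact ⟨_, h3⟩

end Pool.Agent.H519_RV
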