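import Pool.Agent.H420.Gr

/-!
# The Roth-Vande Vate mechanism for the stable marriage problem
-/

namespace Pool.Agent.H519_RV

open Pool.Agent.NPC

/-- An instance of the stable marriage problem: the preference lists (best first) of the men
`0, ..., n-1` and of the women `0, ..., n-1`. -/
abbrev Inst : Type := List (List ℕ) × List (List ℕ)

/-- The number `n` of men (and of women). -/
def size (I : Inst) : ℕ := I.1.length

/-- There are as many women as men, and every agent strictly ranks all members of the opposite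
sex. -/
def Valid (I : Inst) : Prop :=
  I.2.length = size I ∧ (∀ L ∈ I.1, L.Perm (List.range (size I))) ∧
    ∀ L ∈ I.2, L.Perm (List.range (size I))

/-- The man `m` prefers the woman `w` to the woman `w'`. -/
def MPref (I : Inst) (m w w' : ℕ) : Prop :=
  (I.1.getD m []).idxOf w < (I.1.getD m []).idxOf w'

/-- The woman `w` prefers the man `m` to the man `m'`. -/
def WPref (I : Inst) (w m m' : ℕ) : Prop :=
  (I.2.getD w []).idxOf m < (I.2.getD w []).idxOf m'

/-- A matching: a set of disjoint pairs (man, woman), not necessarily perfect. -/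
structure IsMatching (I : Inst) (M : Set (ℕ × ℕ)) : Prop where
  lt : ∀ {m w : ℕ}, (m, w) ∈ M → m < size I ∧ w < size I
  man : ∀ {m w w' : ℕ}, (m, w) ∈ M → (m, w') ∈ M → w = w'
  woman : ∀ {m m' w : ℕ}, (m, w) ∈ M → (m', w) ∈ M → m = m'

/-- The pair `(m, w)`, which is not in `M`, blocks `M`: each of `m`, `w` is unmatched in `M` or
prefers the other to the partner in `M`. -/
def Blocks (I : Inst) (M : Set (ℕ × ℕ)) (m w : ℕ) : Prop :=
  m < size I ∧ w < size I ∧ (m, w) ∉ M ∧ (∀ w', (m, w') ∈ M → MPref I m w w') ∧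
    (∀ m', (m', w) ∈ M → WPref I w m m')

/-- `M` is a stable matching of `I`. -/
def Stable (I : Inst) (M : Set (ℕ × ℕ)) : Prop := IsMatching I M ∧ ∀ m w, ¬ Blocks I M m w

/-- Agents: `Sum.inl m` is the man `m`, `Sum.inr w` is the woman `w`. -/
abbrev Person : Type := ℕ ⊕ ℕ

/-- `M|_S`: the pairs of `M` both of whose members are in `S`. -/
def res (S : Set Person) (M : Set (ℕ × ℕ)) : Set (ℕ × ℕ) :=
  {q | q ∈ M ∧ Sum.inl q.1 ∈ S ∧ Sum.inr q.2 ∈ S}

/-- The pair `(m, w)` blocks `M|_S` in `I|_S`. -/
def BlocksIn (I : Inst) (S : Set Person) (M : Set (ℕ × ℕ)) (m w : ℕ) : Prop :=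
  Sum.inl m ∈ S ∧ Sum.inr w ∈ S ∧ Blocks I (res S M) m w

/-- The inner loop of the mechanism: `Inner I S M p M'` means that the loop started with the matching
`M` and the agent `p` ends with the matching `M'`.  While `p` lies in a pair blocking `M|_S` in
`I|_S`, let `b` be the agent whom `p` ranks highest among those forming such a pair with `p`; if `b`
is matched to `c` then `(c, b)` is deleted; `(p, b)` is added, and if `c` exists then `p := c`. -/
inductive Inner (I : Inst) (S : Set Person) : Set (ℕ × ℕ) → Person → Set (ℕ × ℕ) → Prop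
  | stopM {M : Set (ℕ × ℕ)} {m : ℕ} (h : ∀ w, ¬ BlocksIn I S M m w) : Inner I S M (Sum.inl m) M
  | stopW {M : Set (ℕ × ℕ)} {w : ℕ} (h : ∀ m, ¬ BlocksIn I S M m w) : Inner I S M (Sum.inr w) M
  | manFree {M M' : Set (ℕ × ℕ)} {m w : ℕ} (hb : BlocksIn I S M m w)
      (best : ∀ w', BlocksIn I S M m w' → w' = w ∨ MPref I m w w') (hf : ∀ m', (m', w) ∉ M)
      (next : Inner I S (insert (m, w) M) (Sum.inl m) M') : Inner I S M (Sum.inl m) M'
  | manSwap {M M' : Set (ℕ × ℕ)} {m w m' : ℕ} (hb : BlocksIn I S M m w)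
      (best : ∀ w', BlocksIn I S M m w' → w' = w ∨ MPref I m w w') (hc : (m', w) ∈ M)
      (next : Inner I S (insert (m, w) (M \ {(m', w)})) (Sum.inl m') M') :
      Inner I S M (Sum.inl m) M'
  | womanFree {M M' : Set (ℕ × ℕ)} {m w : ℕ} (hb : BlocksIn I S M m w)
      (best : ∀ m', BlocksIn I S M m' w → m' = m ∨ WPref I w m m') (hf : ∀ w', (m, w') ∉ M)
      (next : Inner I S (insert (m, w) M) (Sum.inr w) M') : Inner I S M (Sum.inr w) M'
  | womanSwap {M M' : Set (ℕ × ℕ)} {m w w' : ℕ} (hb : BlocksIn I S M m w)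
      (best : ∀ m', BlocksIn I S M m' w → m' = m ∨ WPref I w m m') (hc : (m, w') ∈ M)
      (next : Inner I S (insert (m, w) (M \ {(m, w')})) (Sum.inr w') M') :
      Inner I S M (Sum.inr w) M'

/-- One round of the mechanism, from the current matching and set `S` to the next ones.
`oneM`, `oneW` (step 1): an agent `a` outside `S` that forms a pair blocking `M` with an agent in `S`
is chosen, its pair is removed from `M`, `a` is put into `S`, and the inner loop is run from
`p := a`.  `two` (step 2): if there is no such agent, any pair blocking `M` is chosen (its members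
are then outside `S`); its members are put into `S`, their pairs are deleted and the pair is added. -/
inductive Step (I : Inst) : Set (ℕ × ℕ) × Set Person → Set (ℕ × ℕ) × Set Person → Prop
  | oneM {M M' : Set (ℕ × ℕ)} {S : Set Person} {m w : ℕ} (hm : Sum.inl m ∉ S) (hw : Sum.inr w ∈ S)
      (hb : Blocks I M m w)
      (hi : Inner I (insert (Sum.inl m) S) {q | q ∈ M ∧ q.1 ≠ m} (Sum.inl m) M') :
      Step I (M, S) (M', insert (Sum.inl m) S)
  | oneW {M M' : Set (ℕ × ℕ)} {S : Set Person} {m w : ℕ} (hw : Sum.inr w ∉ S) (hm : Sum.inl m ∈ S)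
      (hb : Blocks I M m w)
      (hi : Inner I (insert (Sum.inr w) S) {q | q ∈ M ∧ q.2 ≠ w} (Sum.inr w) M') :
      Step I (M, S) (M', insert (Sum.inr w) S)
  | two {M : Set (ℕ × ℕ)} {S : Set Person} {m w : ℕ}
      (hno : ∀ m' w', Blocks I M m' w' → (Sum.inl m' ∈ S ↔ Sum.inr w' ∈ S))
      (hb : Blocks I M m w) (hm : Sum.inl m ∉ S) (hw : Sum.inr w ∉ S) :
      Step I (M, S) (insert (m, w) {q | q ∈ M ∧ q.1 ≠ m ∧ q.2 ≠ w},
        insert (Sum.inl m) (insert (Sum.inr w) S))

/-- Some execution of the mechanism started at `M₀` stops at the stable matching `M`.  (Every round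
starts at a matching that is not stable, and the mechanism stops at the first stable matching.) -/
def Reaches (I : Inst) (M₀ M : Set (ℕ × ℕ)) : Prop :=
  Stable I M ∧ ∃ S, Relation.ReflTransGen (Step I) (M₀, ∅) (M, S)

/-- The decision problem REACH: given a stable marriage instance, a matching `M₀` and a stable
matching `M`, does some execution of the Roth-Vande Vate mechanism started at `M₀` stop at `M`? -/
def Reach (X : Inst × List (ℕ × ℕ) × List (ℕ × ℕ)) : Prop :=
  Valid X.1 ∧ IsMatching X.1 {q | q ∈ X.2.1} ∧ Stable X.1 {q | q ∈ X.2.2} ∧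
    Reaches X.1 {q | q ∈ X.2.1} {q | q ∈ X.2.2}

end Pool.Agent.H519_RV
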