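import Pool.Agent.H519_RV.Steps

/-!
# The execution given by a satisfying assignment
-/

namespace Pool.Agent.H519_RV

open Pool.Agent.NPC Function Relation

variable {K : ℕ} {var : ℕ → ℕ} {sgn : ℕ → Bool}

theorem stepF0 {s : St} (hs : Closed s) {j r x : ℕ} (hj : j < K) (hr : r < 3)
    (hy : 3 * K + x = lw K var sgn (3 * j + r)) (hx : x < 3 * K) (hXA : x ∉ s.XA) (hD : j ∉ s.D) :
    Step (inst K var sgn) (st K s) (wst K { s with XB := insert x s.XB } j (3 * K + x)) := by
  classical
  have hXB : x ∉ s.XB := by rw [← hs.hX]; exact hXA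
  have hcj : F K s j = some j := by rw [F_c hj, if_neg hD]
  have hb0 : G K s (3 * K + x) = none := by rw [G_a hx, if_neg fun h => hXB h.2]
  have hu : ∀ m', F K s m' ≠ some (3 * K + x) := fun m' => nG hs.nest hb0
  have hb : Blocks (inst K var sgn) (gr (F K s)) j (3 * K + x) := by
    refine ⟨by rw [size_inst]; omega, by rw [size_inst]; omega, hu _, ?_, ?_⟩
    · intro w' h'
      rw [mem_gr, hcj] at h'
      rw [← Option.some.inj h', hy]
      exact pos_cy hj hr
    · intro m' h'
      exact absurd h' (hu m')
  have hm : Sum.inl j ∉ SS K s := by rw [inlS, inS_c hj]; exact hD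
  have hw : Sum.inr (3 * K + x) ∉ SS K s := by rw [inrS, inS_a hx]; exact hXB
  have h1 := Step.two hs.no hb hm hw
  rw [gr_two hu] at h1
  unfold wst
  rw [F_XB_same (K := K) s hXA, SS_XB s hx]
  exact h1

/-- The man `m` enters and takes the woman `m`, open before. -/
theorem step_last {s s' : St} {m : ℕ} (hm : m < 9 * K) (hs : Nest s)
    (un : G K s m = none) (unF : F K s m = none) (mem : Sum.inr m ∈ SS K s)
    (nm : Sum.inl m ∉ SS K s) (up : ∀ w, MPref (inst K var sgn) m w m → False)
    (hF : F K s' = update (F K s) m (some m)) (hS : SS K s' = insert (Sum.inl m) (SS K s)) :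
    Step (inst K var sgn) (st K s) (st K s') := by
  have hu : ∀ m', F K s m' ≠ some m := fun m' => nG hs un
  have hb : Blocks (inst K var sgn) (gr (F K s)) m m := by
    refine ⟨by rw [size_inst]; omega, by rw [size_inst]; omega, hu _, ?_, ?_⟩
    · intro w' h'
      rw [mem_gr, unF] at h'
      simp at h'
    · intro m' h'
      exact absurd h' (hu m')
  have hd : update (F K s) m none = F K s := by
    rw [← unF, update_eq_self]
  unfold st
  rw [hS]
  refine Step.oneM nm mem hb ?_
  rw [gr_delM, hd]
  refine Inner.manFree (w := m)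
    (blocksIn_of (Set.mem_insert _ _) (Set.mem_insert_of_mem _ mem) hb) ?_ hu ?_
  · intro w' _
    exact tri_m (w := m) hm hm (up w')
  · rw [gr_free unF, ← hF, ← hS]
    refine Inner.stopM ?_
    intro w' hb'
    refine up w' (bprefM hb' ?_ ?_)
    · rw [hF, update_self]
    · rw [hS]
      exact Set.mem_insert_of_mem _ mem

end Pool.Agent.H519_RV
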