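import Pool.Agent.H519_RV.Inst

/-!
# Executions that stop at the target matching give satisfying assignments
-/

namespace Pool.Agent.H519_RV

open Pool.Agent.NPC

variable {K : ℕ} {var : ℕ → ℕ} {sgn : ℕ → Bool}

/-- The clause `j` has a true literal whose variable is already decided. -/
def SatC (K : ℕ) (var : ℕ → ℕ) (sgn : ℕ → Bool) (S : Set Person) (τ : ℕ → Bool) (j : ℕ) : Prop :=
  ∃ r < 3, τ (var (3 * j + r)) = sgn (3 * j + r) ∧
    (Sum.inl (3 * K + var (3 * j + r)) ∈ S ∨ Sum.inr (3 * K + var (3 * j + r)) ∈ S)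

/-- The agents of the clause `j` are in the initial state. -/
def U (K : ℕ) (M : Set (ℕ × ℕ)) (S : Set Person) (j : ℕ) : Prop :=
  Sum.inl j ∉ S ∧ Sum.inr j ∉ S ∧ (j, j) ∈ M ∧
    ((Sum.inl (K + j) ∉ S ∧ Sum.inr (K + j) ∉ S ∧ Sum.inl (2 * K + j) ∉ S ∧
        Sum.inr (2 * K + j) ∉ S ∧ (2 * K + j, K + j) ∈ M ∧ (K + j, 2 * K + j) ∈ M) ∨
      (Sum.inl (K + j) ∈ S ∧ Sum.inr (K + j) ∈ S ∧ (K + j, K + j) ∈ M))

/-- The part of the invariant that does not mention the agent `p`. -/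
structure Core (K : ℕ) (var : ℕ → ℕ) (sgn : ℕ → Bool) (M : Set (ℕ × ℕ)) (S : Set Person)
    (τ : ℕ → Bool) : Prop where
  mat : IsMatching (inst K var sgn) M
  cls : ∀ m w, (m, w) ∈ M → (Sum.inl m ∈ S ↔ Sum.inr w ∈ S)
  tT : ∀ x < 3 * K, Sum.inl (3 * K + x) ∈ S → Sum.inr (3 * K + x) ∉ S → τ x = true
  tF : ∀ x < 3 * K, Sum.inr (3 * K + x) ∈ S → Sum.inl (3 * K + x) ∉ S → τ x = false
  x2 : ∀ x < 3 * K, (Sum.inl (6 * K + x) ∉ S ∧ Sum.inr (6 * K + x) ∉ S ∧
      (6 * K + x, 6 * K + x) ∈ M) ∨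
    (Sum.inr (6 * K + x) ∈ S ∧ Sum.inl (3 * K + x) ∈ S ∧ τ x = true)
  cl : ∀ j < K, SatC K var sgn S τ j ∨ U K M S j

/-- The invariant between two rounds. -/
structure Inv (K : ℕ) (var : ℕ → ℕ) (sgn : ℕ → Bool) (M : Set (ℕ × ℕ)) (S : Set Person)
    (τ : ℕ → Bool) : Prop extends Core K var sgn M S τ where
  x1 : ∀ x < 3 * K, Sum.inl (3 * K + x) ∈ S → Sum.inr (3 * K + x) ∈ S →
    (3 * K + x, 3 * K + x) ∈ M

/-- The invariant during the inner loop. -/
structure InvP (K : ℕ) (var : ℕ → ℕ) (sgn : ℕ → Bool) (M : Set (ℕ × ℕ)) (S : Set Person)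
    (τ : ℕ → Bool) (p : Person) : Prop extends Core K var sgn M S τ where
  x1 : ∀ x < 3 * K, Sum.inl (3 * K + x) ∈ S → Sum.inr (3 * K + x) ∈ S →
    (3 * K + x, 3 * K + x) ∈ M ∨ p = Sum.inl (3 * K + x) ∨ p = Sum.inr (3 * K + x)
  psM : ∀ m, p = Sum.inl m → (∀ w, (m, w) ∉ M) ∨ ∀ w, ¬ BlocksIn (inst K var sgn) S M m w
  psW : ∀ w, p = Sum.inr w → (∀ m, (m, w) ∉ M) ∨ ∀ m, ¬ BlocksIn (inst K var sgn) S M m w

theorem mem_res {S : Set Person} {M : Set (ℕ × ℕ)} {m w : ℕ} :
    (m, w) ∈ res S M ↔ (m, w) ∈ M ∧ Sum.inl m ∈ S ∧ Sum.inr w ∈ S := Iff.rfl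

/-- The two first agents of a variable block if both are in `S` and not matched. -/
theorem block_ab {M : Set (ℕ × ℕ)} {x : ℕ} (hx : x < 3 * K) (h : (3 * K + x, 3 * K + x) ∉ M) :
    Blocks (inst K var sgn) M (3 * K + x) (3 * K + x) := by
  refine ⟨by rw [size_inst]; omega, by rw [size_inst]; omega, h, ?_, ?_⟩
  · intro w' hw'
    refine top_a hx ?_
    rintro rfl
    exact h hw'
  · intro m' hm'
    refine top_b hx ?_
    rintro rfl
    exact h hm'

theorem blockIn_ab {M : Set (ℕ × ℕ)} {S : Set Person} {x : ℕ} (hx : x < 3 * K)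
    (h1 : Sum.inl (3 * K + x) ∈ S) (h2 : Sum.inr (3 * K + x) ∈ S)
    (h : (3 * K + x, 3 * K + x) ∉ M) :
    BlocksIn (inst K var sgn) S M (3 * K + x) (3 * K + x) :=
  ⟨h1, h2, block_ab hx (fun h' => h (mem_res.1 h').1)⟩

/-- Pairs of `M` whose members are compared in a blocking pair of `M|_S`. -/
theorem bm {M : Set (ℕ × ℕ)} {S : Set Person} {τ : ℕ → Bool} (hC : Core K var sgn M S τ)
    {m w w' : ℕ} (hb : BlocksIn (inst K var sgn) S M m w) (h : (m, w') ∈ M) :
    MPref (inst K var sgn) m w w' :=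
  hb.2.2.2.2.2.1 w' (mem_res.2 ⟨h, hb.1, (hC.cls _ _ h).1 hb.1⟩)

theorem bw {M : Set (ℕ × ℕ)} {S : Set Person} {τ : ℕ → Bool} (hC : Core K var sgn M S τ)
    {m m' w : ℕ} (hb : BlocksIn (inst K var sgn) S M m w) (h : (m', w) ∈ M) :
    WPref (inst K var sgn) w m m' :=
  hb.2.2.2.2.2.2 m' (mem_res.2 ⟨h, (hC.cls _ _ h).2 hb.2.1, hb.2.1⟩)

theorem bnot {M : Set (ℕ × ℕ)} {S : Set Person} {m w : ℕ}
    (hb : BlocksIn (inst K var sgn) S M m w) : (m, w) ∉ M := fun h =>
  hb.2.2.2.2.1 (mem_res.2 ⟨h, hb.1, hb.2.1⟩)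

/-- The matching changes inside `S` only: `M₁` arises from `M` by adding the pair `(m, w)` and
deleting at most one pair containing `w` (a man proposes). -/
theorem coreM {M M₁ : Set (ℕ × ℕ)} {S : Set Person} {τ : ℕ → Bool}
    (hC : Core K var sgn M S τ) {m w : ℕ} (hb : BlocksIn (inst K var sgn) S M m w)
    (hs : ∀ w', (m, w') ∉ M) (h1 : ∀ q, q ∈ M₁ ↔ q = (m, w) ∨ (q ∈ M ∧ q.2 ≠ w)) :
    Core K var sgn M₁ S τ := by
  refine ⟨⟨?_, ?_, ?_⟩, ?_, hC.tT, hC.tF, ?_, ?_⟩
  · intro a b h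
    rw [h1] at h
    rcases h with h | h
    · obtain ⟨rfl, rfl⟩ := Prod.mk.inj h
      exact ⟨hb.2.2.1, hb.2.2.2.1⟩
    · exact hC.mat.lt h.1
  · intro a b b' h h'
    rw [h1] at h h'
    rcases h with h | h <;> rcases h' with h' | h'
    · rw [(Prod.mk.inj h).2, (Prod.mk.inj h').2]
    · rw [(Prod.mk.inj h).1] at h'
      exact absurd h'.1 (hs _)
    · rw [(Prod.mk.inj h').1] at h
      exact absurd h.1 (hs _)
    · exact hC.mat.man h.1 h'.1
  · intro a a' b h h'
    rw [h1] at h h'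
    rcases h with h | h <;> rcases h' with h' | h'
    · rw [(Prod.mk.inj h).1, (Prod.mk.inj h').1]
    · exact absurd (Prod.mk.inj h).2 h'.2
    · exact absurd (Prod.mk.inj h').2 h.2
    · exact hC.mat.woman h.1 h'.1
  · intro a b h
    rw [h1] at h
    rcases h with h | h
    · obtain ⟨rfl, rfl⟩ := Prod.mk.inj h
      exact ⟨fun _ => hb.2.1, fun _ => hb.1⟩
    · exact hC.cls _ _ h.1
  · intro x hx
    rcases hC.x2 x hx with ⟨h2, h3, h4⟩ | h2
    · left
      refine ⟨h2, h3, (h1 _).2 (Or.inr ⟨h4, ?_⟩)⟩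
      rintro rfl
      exact h3 hb.2.1
    · exact Or.inr h2
  · intro j hj
    rcases hC.cl j hj with h | ⟨h2, h3, h4, h5⟩
    · exact Or.inl h
    · right
      refine ⟨h2, h3, (h1 _).2 (Or.inr ⟨h4, ?_⟩), ?_⟩
      · rintro rfl
        exact h3 hb.2.1
      · rcases h5 with ⟨h5, h6, h7, h8, h9, h10⟩ | ⟨h5, h6, h7⟩
        · left
          refine ⟨h5, h6, h7, h8, (h1 _).2 (Or.inr ⟨h9, ?_⟩), (h1 _).2 (Or.inr ⟨h10, ?_⟩)⟩
          · rintro rfl
            exact h6 hb.2.1
          · rintro rfl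
            exact h8 hb.2.1
        · right
          refine ⟨h5, h6, (h1 _).2 (Or.inr ⟨h7, ?_⟩)⟩
          rintro rfl
          exact up_ht hj (bw hC hb h7)

/-- The same when a woman proposes. -/
theorem coreW {M M₁ : Set (ℕ × ℕ)} {S : Set Person} {τ : ℕ → Bool}
    (hC : Core K var sgn M S τ) {m w : ℕ} (hb : BlocksIn (inst K var sgn) S M m w)
    (hs : ∀ m', (m', w) ∉ M) (h1 : ∀ q, q ∈ M₁ ↔ q = (m, w) ∨ (q ∈ M ∧ q.1 ≠ m)) :
    Core K var sgn M₁ S τ := by
  refine ⟨⟨?_, ?_, ?_⟩, ?_, hC.tT, hC.tF, ?_, ?_⟩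
  · intro a b h
    rw [h1] at h
    rcases h with h | h
    · obtain ⟨rfl, rfl⟩ := Prod.mk.inj h
      exact ⟨hb.2.2.1, hb.2.2.2.1⟩
    · exact hC.mat.lt h.1
  · intro a b b' h h'
    rw [h1] at h h'
    rcases h with h | h <;> rcases h' with h' | h'
    · rw [(Prod.mk.inj h).2, (Prod.mk.inj h').2]
    · exact absurd (Prod.mk.inj h).1 h'.2
    · exact absurd (Prod.mk.inj h').1 h.2
    · exact hC.mat.man h.1 h'.1
  · intro a a' b h h'
    rw [h1] at h h'
    rcases h with h | h <;> rcases h' with h' | h'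
    · rw [(Prod.mk.inj h).1, (Prod.mk.inj h').1]
    · rw [(Prod.mk.inj h).2] at h'
      exact absurd h'.1 (hs _)
    · rw [(Prod.mk.inj h').2] at h
      exact absurd h.1 (hs _)
    · exact hC.mat.woman h.1 h'.1
  · intro a b h
    rw [h1] at h
    rcases h with h | h
    · obtain ⟨rfl, rfl⟩ := Prod.mk.inj h
      exact ⟨fun _ => hb.2.1, fun _ => hb.1⟩
    · exact hC.cls _ _ h.1
  · intro x hx
    rcases hC.x2 x hx with ⟨h2, h3, h4⟩ | h2
    · left
      refine ⟨h2, h3, (h1 _).2 (Or.inr ⟨h4, ?_⟩)⟩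
      rintro rfl
      exact h2 hb.1
    · exact Or.inr h2
  · intro j hj
    rcases hC.cl j hj with h | ⟨h2, h3, h4, h5⟩
    · exact Or.inl h
    · right
      refine ⟨h2, h3, (h1 _).2 (Or.inr ⟨h4, ?_⟩), ?_⟩
      · rintro rfl
        exact h2 hb.1
      · rcases h5 with ⟨h5, h6, h7, h8, h9, h10⟩ | ⟨h5, h6, h7⟩
        · left
          refine ⟨h5, h6, h7, h8, (h1 _).2 (Or.inr ⟨h9, ?_⟩), (h1 _).2 (Or.inr ⟨h10, ?_⟩)⟩
          · rintro rfl
            exact h7 hb.1
          · rintro rfl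
            exact h5 hb.1
        · right
          refine ⟨h5, h6, (h1 _).2 (Or.inr ⟨h7, ?_⟩)⟩
          rintro rfl
          have := up_g' hj (bm hC hb h7)
          rw [this] at hb
          exact h3 hb.2.1

/-- The inner loop preserves the invariant. -/
theorem inner_inv {M M' : Set (ℕ × ℕ)} {S : Set Person} {τ : ℕ → Bool} {p : Person}
    (hi : Inner (inst K var sgn) S M p M') (hI : InvP K var sgn M S τ p) :
    Inv K var sgn M' S τ := by
  induction hi with
  | @stopM M m h =>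
    refine ⟨hI.toCore, fun x hx h1 h2 => ?_⟩
    rcases hI.x1 x hx h1 h2 with h3 | h3 | h3
    · exact h3
    · by_contra hn
      obtain rfl := Sum.inl.inj h3
      exact h _ (blockIn_ab hx h1 h2 hn)
    · exact absurd h3 (by simp)
  | @stopW M w h =>
    refine ⟨hI.toCore, fun x hx h1 h2 => ?_⟩
    rcases hI.x1 x hx h1 h2 with h3 | h3 | h3
    · exact h3
    · exact absurd h3 (by simp)
    · by_contra hn
      obtain rfl := Sum.inr.inj h3
      exact h _ (blockIn_ab hx h1 h2 hn)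
  | @manFree M M' m w hb best hf next ih =>
    have hs : ∀ w', (m, w') ∉ M := by
      rcases hI.psM m rfl with h | h
      · exact h
      · exact absurd hb (h w)
    have h1 : ∀ q, q ∈ insert (m, w) M ↔ q = (m, w) ∨ (q ∈ M ∧ q.2 ≠ w) := by
      rintro ⟨a, b⟩
      rw [Set.mem_insert_iff]
      constructor
      · rintro (h | h)
        · exact Or.inl h
        · refine Or.inr ⟨h, ?_⟩
          rintro rfl
          exact hf _ h
      · rintro (h | h)
        · exact Or.inl h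
        · exact Or.inr h.1
    apply ih
    refine ⟨coreM hI.toCore hb hs h1, ?_, ?_, ?_⟩
    · intro x hx h2 h3
      rcases hI.x1 x hx h2 h3 with h4 | h4 | h4
      · exact Or.inl (Or.inr h4)
      · obtain rfl := Sum.inl.inj h4
        by_cases h5 : (3 * K + x, 3 * K + x) ∈ M
        · exact Or.inl (Or.inr h5)
        · rcases best _ (blockIn_ab hx h2 h3 h5) with h6 | h6
          · left; left; rw [h6]
          · exact absurd h6 (fun h => up_a hx h)
      · exact absurd h4 (by simp)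
    · rintro m1 h2
      obtain rfl := Sum.inl.inj h2
      right
      intro w' hb'
      have hne : w' ≠ w := by
        rintro rfl
        exact bnot hb' (Or.inl rfl)
      have hp : MPref (inst K var sgn) m w' w :=
        hb'.2.2.2.2.2.1 w (mem_res.2 ⟨Or.inl rfl, hb.1, hb.2.1⟩)
      have hb2 : BlocksIn (inst K var sgn) S M m w' := by
        refine ⟨hb'.1, hb'.2.1, hb'.2.2.1, hb'.2.2.2.1, ?_, ?_, ?_⟩
        · intro h
          exact hs _ (mem_res.1 h).1
        · intro w'' h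
          exact absurd (mem_res.1 h).1 (hs _)
        · intro m'' h
          exact hb'.2.2.2.2.2.2 m'' ⟨Or.inr (mem_res.1 h).1, (mem_res.1 h).2⟩
      rcases best w' hb2 with h | h
      · exact hne h
      · unfold MPref at h hp
        omega
    · intro w1 h2
      exact absurd h2 (by simp)
  | @manSwap M M' m w m' hb best hc next ih =>
    have hs : ∀ w', (m, w') ∉ M := by
      rcases hI.psM m rfl with h | h
      · exact h
      · exact absurd hb (h w)
    have h1 : ∀ q, q ∈ insert (m, w) (M \ {(m', w)}) ↔ q = (m, w) ∨ (q ∈ M ∧ q.2 ≠ w) := by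
      rintro ⟨a, b⟩
      rw [Set.mem_insert_iff, Set.mem_sdiff, Set.mem_singleton_iff]
      constructor
      · rintro (h | h)
        · exact Or.inl h
        · refine Or.inr ⟨h.1, ?_⟩
          rintro rfl
          exact h.2 (by rw [hI.mat.woman h.1 hc])
      · rintro (h | h)
        · exact Or.inl h
        · refine Or.inr ⟨h.1, ?_⟩
          intro h2
          exact h.2 (Prod.mk.inj h2).2
    apply ih
    refine ⟨coreM hI.toCore hb hs h1, ?_, ?_, ?_⟩
    · intro x hx h2 h3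
      by_cases h5 : (3 * K + x, 3 * K + x) ∈ M
      · left
        refine (h1 _).2 (Or.inr ⟨h5, ?_⟩)
        rintro rfl
        exact up_b hx (bw hI.toCore hb h5)
      · rcases hI.x1 x hx h2 h3 with h4 | h4 | h4
        · exact absurd h4 h5
        · obtain rfl := Sum.inl.inj h4
          rcases best _ (blockIn_ab hx h2 h3 h5) with h6 | h6
          · left; left; rw [h6]
          · exact absurd h6 (fun h => up_a hx h)
        · exact absurd h4 (by simp)
    · rintro m1 h2
      obtain rfl := Sum.inl.inj h2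
      left
      intro w' h
      rcases (h1 _).1 h with h3 | h3
      · obtain ⟨rfl, rfl⟩ := Prod.mk.inj h3
        exact bnot hb hc
      · exact h3.2 (hI.mat.man h3.1 hc)
    · intro w1 h2
      exact absurd h2 (by simp)
  | @womanFree M M' m w hb best hf next ih =>
    have hs : ∀ m', (m', w) ∉ M := by
      rcases hI.psW w rfl with h | h
      · exact h
      · exact absurd hb (h m)
    have h1 : ∀ q, q ∈ insert (m, w) M ↔ q = (m, w) ∨ (q ∈ M ∧ q.1 ≠ m) := by
      rintro ⟨a, b⟩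
      rw [Set.mem_insert_iff]
      constructor
      · rintro (h | h)
        · exact Or.inl h
        · refine Or.inr ⟨h, ?_⟩
          rintro rfl
          exact hf _ h
      · rintro (h | h)
        · exact Or.inl h
        · exact Or.inr h.1
    apply ih
    refine ⟨coreW hI.toCore hb hs h1, ?_, ?_, ?_⟩
    · intro x hx h2 h3
      rcases hI.x1 x hx h2 h3 with h4 | h4 | h4
      · exact Or.inl (Or.inr h4)
      · exact absurd h4 (by simp)
      · obtain rfl := Sum.inr.inj h4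
        by_cases h5 : (3 * K + x, 3 * K + x) ∈ M
        · exact Or.inl (Or.inr h5)
        · rcases best _ (blockIn_ab hx h2 h3 h5) with h6 | h6
          · left; left; rw [h6]
          · exact absurd h6 (fun h => up_b hx h)
    · intro w1 h2
      exact absurd h2 (by simp)
    · rintro w1 h2
      obtain rfl := Sum.inr.inj h2
      right
      intro m' hb'
      have hne : m' ≠ m := by
        rintro rfl
        exact bnot hb' (Or.inl rfl)
      have hp : WPref (inst K var sgn) w m' m :=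
        hb'.2.2.2.2.2.2 m (mem_res.2 ⟨Or.inl rfl, hb.1, hb.2.1⟩)
      have hb2 : BlocksIn (inst K var sgn) S M m' w := by
        refine ⟨hb'.1, hb'.2.1, hb'.2.2.1, hb'.2.2.2.1, ?_, ?_, ?_⟩
        · intro h
          exact hs _ (mem_res.1 h).1
        · intro w'' h
          exact hb'.2.2.2.2.2.1 w'' ⟨Or.inr (mem_res.1 h).1, (mem_res.1 h).2⟩
        · intro m'' h
          exact absurd (mem_res.1 h).1 (hs _)
      rcases best m' hb2 with h | h
      · exact hne h
      · unfold WPref at h hp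
        omega
  | @womanSwap M M' m w w' hb best hc next ih =>
    have hs : ∀ m', (m', w) ∉ M := by
      rcases hI.psW w rfl with h | h
      · exact h
      · exact absurd hb (h m)
    have h1 : ∀ q, q ∈ insert (m, w) (M \ {(m, w')}) ↔ q = (m, w) ∨ (q ∈ M ∧ q.1 ≠ m) := by
      rintro ⟨a, b⟩
      rw [Set.mem_insert_iff, Set.mem_sdiff, Set.mem_singleton_iff]
      constructor
      · rintro (h | h)
        · exact Or.inl h
        · refine Or.inr ⟨h.1, ?_⟩
          rintro rfl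
          exact h.2 (by rw [hI.mat.man h.1 hc])
      · rintro (h | h)
        · exact Or.inl h
        · refine Or.inr ⟨h.1, ?_⟩
          intro h2
          exact h.2 (Prod.mk.inj h2).1
    apply ih
    refine ⟨coreW hI.toCore hb hs h1, ?_, ?_, ?_⟩
    · intro x hx h2 h3
      by_cases h5 : (3 * K + x, 3 * K + x) ∈ M
      · left
        refine (h1 _).2 (Or.inr ⟨h5, ?_⟩)
        rintro rfl
        exact up_a hx (bm hI.toCore hb h5)
      · rcases hI.x1 x hx h2 h3 with h4 | h4 | h4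
        · exact absurd h4 h5
        · exact absurd h4 (by simp)
        · obtain rfl := Sum.inr.inj h4
          rcases best _ (blockIn_ab hx h2 h3 h5) with h6 | h6
          · left; left; rw [h6]
          · exact absurd h6 (fun h => up_b hx h)
    · intro w1 h2
      exact absurd h2 (by simp)
    · rintro w1 h2
      obtain rfl := Sum.inr.inj h2
      left
      intro m' h
      rcases (h1 _).1 h with h3 | h3
      · obtain ⟨rfl, rfl⟩ := Prod.mk.inj h3
        exact bnot hb hc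
      · exact h3.2 (hI.mat.woman h3.1 hc)

/-! ### The rounds -/

open Classical in
/-- The assignment after a round: newly decided variables are true if the man has entered. -/
noncomputable def upd (K : ℕ) (τ : ℕ → Bool) (S S' : Set Person) (x : ℕ) : Bool :=
  if Sum.inl (3 * K + x) ∈ S ∨ Sum.inr (3 * K + x) ∈ S then τ x
  else decide (Sum.inl (3 * K + x) ∈ S')

theorem upd_det {τ : ℕ → Bool} {S S' : Set Person} {x : ℕ}
    (h : Sum.inl (3 * K + x) ∈ S ∨ Sum.inr (3 * K + x) ∈ S) : upd K τ S S' x = τ x := by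
  unfold upd; rw [if_pos h]

theorem upd_newT {τ : ℕ → Bool} {S S' : Set Person} {x : ℕ}
    (h : Sum.inl (3 * K + x) ∉ S) (h2 : Sum.inr (3 * K + x) ∉ S) (h3 : Sum.inl (3 * K + x) ∈ S') :
    upd K τ S S' x = true := by
  unfold upd; rw [if_neg (by tauto)]; simp [h3]

theorem upd_newF {τ : ℕ → Bool} {S S' : Set Person} {x : ℕ}
    (h : Sum.inl (3 * K + x) ∉ S) (h2 : Sum.inr (3 * K + x) ∉ S) (h3 : Sum.inl (3 * K + x) ∉ S') :
    upd K τ S S' x = false := by
  unfold upd; rw [if_neg (by tauto)]; simp [h3]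

theorem upd_tT {M : Set (ℕ × ℕ)} {τ : ℕ → Bool} {S S' : Set Person}
    (hC : Core K var sgn M S τ) (hS : S ⊆ S') {x : ℕ} (hx : x < 3 * K)
    (h1 : Sum.inl (3 * K + x) ∈ S') (h2 : Sum.inr (3 * K + x) ∉ S') : upd K τ S S' x = true := by
  have h3 : Sum.inr (3 * K + x) ∉ S := fun h => h2 (hS h)
  by_cases h4 : Sum.inl (3 * K + x) ∈ S
  · rw [upd_det (Or.inl h4)]
    exact hC.tT x hx h4 h3
  · exact upd_newT h4 h3 h1

theorem upd_tF {M : Set (ℕ × ℕ)} {τ : ℕ → Bool} {S S' : Set Person}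
    (hC : Core K var sgn M S τ) (hS : S ⊆ S') {x : ℕ} (hx : x < 3 * K)
    (h1 : Sum.inr (3 * K + x) ∈ S') (h2 : Sum.inl (3 * K + x) ∉ S') :
    upd K τ S S' x = false := by
  have h3 : Sum.inl (3 * K + x) ∉ S := fun h => h2 (hS h)
  by_cases h4 : Sum.inr (3 * K + x) ∈ S
  · rw [upd_det (Or.inr h4)]
    exact hC.tF x hx h4 h3
  · exact upd_newF h3 h4 h2

theorem satC_mono {τ : ℕ → Bool} {S S' : Set Person} (hS : S ⊆ S') {j : ℕ}
    (h : SatC K var sgn S τ j) : SatC K var sgn S' (upd K τ S S') j := by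
  obtain ⟨r, hr, h1, h2⟩ := h
  exact ⟨r, hr, by rw [upd_det h2]; exact h1, h2.imp (fun h => hS h) (fun h => hS h)⟩

/-- A literal of the clause of the man `j` attracts him into `S` only if it is true. -/
theorem satC_of_lw {M : Set (ℕ × ℕ)} {τ : ℕ → Bool} {S : Set Person}
    (hI : Inv K var sgn M S τ) (hvar : ∀ o < 3 * K, var o < 3 * K) {j r : ℕ} (hj : j < K)
    (hr : r < 3) (hin : Sum.inr (lw K var sgn (3 * j + r)) ∈ S)
    (hb : Blocks (inst K var sgn) M j (lw K var sgn (3 * j + r))) : SatC K var sgn S τ j := by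
  have hx := hvar (3 * j + r) (by omega)
  refine ⟨r, hr, ?_⟩
  unfold lw at hin hb
  cases hs : sgn (3 * j + r) with
  | true =>
    rw [hs, if_pos rfl] at hin
    rcases hI.x2 _ hx with ⟨_, h, _⟩ | ⟨_, h1, h2⟩
    · exact absurd hin h
    · exact ⟨h2, Or.inl h1⟩
  | false =>
    rw [hs, if_neg (by simp)] at hin hb
    refine ⟨hI.tF _ hx hin fun h => ?_, Or.inr hin⟩
    exact up_b hx (hb.2.2.2.2 _ (hI.x1 _ hx h hin))

theorem step_oneM {M : Set (ℕ × ℕ)} {τ : ℕ → Bool} {S : Set Person}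
    (hI : Inv K var sgn M S τ) (hvar : ∀ o < 3 * K, var o < 3 * K) {m w : ℕ}
    (hm : Sum.inl m ∉ S) (hw : Sum.inr w ∈ S) (hb : Blocks (inst K var sgn) M m w) :
    InvP K var sgn {q | q ∈ M ∧ q.1 ≠ m} (insert (Sum.inl m) S)
      (upd K τ S (insert (Sum.inl m) S)) (Sum.inl m) := by
  have hS : S ⊆ insert (Sum.inl m) S := Set.subset_insert _ _
  have mr : ∀ w', (Sum.inr w' ∈ insert (Sum.inl m) S ↔ Sum.inr w' ∈ S) := by
    intro w'; simp [Set.mem_insert_iff]
  have ml : ∀ m', m' ≠ m → (Sum.inl m' ∈ insert (Sum.inl m) S ↔ Sum.inl m' ∈ S) := by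
    intro m' h; simp [Set.mem_insert_iff, h]
  have hup : ∀ w', (m, w') ∈ M → MPref (inst K var sgn) m w w' := hb.2.2.2.1
  have hdn : ∀ m', (m', w) ∈ M → WPref (inst K var sgn) w m m' := hb.2.2.2.2
  refine ⟨⟨⟨?_, ?_, ?_⟩, ?_, ?_, ?_, ?_, ?_⟩, ?_, ?_, ?_⟩
  · rintro a b ⟨h, _⟩; exact hI.mat.lt h
  · rintro a b b' ⟨h, _⟩ ⟨h', _⟩; exact hI.mat.man h h'
  · rintro a a' b ⟨h, _⟩ ⟨h', _⟩; exact hI.mat.woman h h'
  · rintro a b ⟨h, h'⟩
    rw [mr, ml a h']
    exact hI.cls _ _ h
  · intro x hx h1 h2; exact upd_tT hI.toCore hS hx h1 h2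
  · intro x hx h1 h2; exact upd_tF hI.toCore hS hx h1 h2
  · intro x hx
    rcases hI.x2 x hx with ⟨h1, h2, h3⟩ | ⟨h1, h2, h3⟩
    · left
      have hne : 6 * K + x ≠ m := by
        rintro rfl
        exact up_al hx (hup _ h3)
      rw [ml _ hne, mr]
      exact ⟨h1, h2, h3, hne⟩
    · right
      exact ⟨hS h1, hS h2, by rw [upd_det (Or.inl h2)]; exact h3⟩
  · intro j hj
    rcases hI.cl j hj with h | ⟨h1, h2, h3, h4⟩
    · exact Or.inl (satC_mono hS h)
    · by_cases hmj : m = j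
      · subst hmj
        left
        rcases up_c hj (hup _ h3) with h5 | ⟨r, hr, h5⟩
        · exfalso
          subst h5
          rcases h4 with ⟨_, h4, _⟩ | ⟨_, _, h4⟩
          · exact h4 hw
          · exact up_ht hj (hdn _ h4)
        · subst h5
          exact satC_mono hS (satC_of_lw hI hvar hj hr hw hb)
      · right
        rcases h4 with ⟨h4, h5, h6, h7, h8, h9⟩ | ⟨h4, h5, h6⟩
        · have n1 : K + j ≠ m := by
            rintro rfl
            rcases up_g hj (hup _ h9) with h | h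
            · subst h; exact h2 hw
            · subst h; exact h5 hw
          have n2 : 2 * K + j ≠ m := by
            rintro rfl
            have h := up_k hj (hup _ h8)
            subst h; exact h7 hw
          refine ⟨?_, ?_, ⟨h3, fun h => hmj h.symm⟩, Or.inl ⟨?_, ?_, ?_, ?_, ⟨h8, n2⟩, ⟨h9, n1⟩⟩⟩
          · rw [ml _ (fun h => hmj h.symm)]; exact h1
          · rw [mr]; exact h2
          · rw [ml _ n1]; exact h4
          · rw [mr]; exact h5
          · rw [ml _ n2]; exact h6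
          · rw [mr]; exact h7
        · have n1 : K + j ≠ m := by
            rintro rfl
            exact hm h4
          refine ⟨?_, ?_, ⟨h3, fun h => hmj h.symm⟩, Or.inr ⟨hS h4, hS h5, ⟨h6, n1⟩⟩⟩
          · rw [ml _ (fun h => hmj h.symm)]; exact h1
          · rw [mr]; exact h2
  · intro x hx h1 h2
    rw [mr] at h2
    by_cases hne : 3 * K + x = m
    · right; left; rw [hne]
    · rw [ml _ hne] at h1
      exact Or.inl ⟨hI.x1 x hx h1 h2, hne⟩
  · intro m1 h
    obtain rfl := Sum.inl.inj h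
    left
    rintro w' ⟨_, h'⟩
    exact h' rfl
  · intro w1 h
    exact absurd h (by simp)

theorem step_oneW {M : Set (ℕ × ℕ)} {τ : ℕ → Bool} {S : Set Person}
    (hI : Inv K var sgn M S τ) {m w : ℕ}
    (hw : Sum.inr w ∉ S) (hm : Sum.inl m ∈ S) (hb : Blocks (inst K var sgn) M m w) :
    InvP K var sgn {q | q ∈ M ∧ q.2 ≠ w} (insert (Sum.inr w) S)
      (upd K τ S (insert (Sum.inr w) S)) (Sum.inr w) := by
  have hS : S ⊆ insert (Sum.inr w) S := Set.subset_insert _ _
  have ml : ∀ m', (Sum.inl m' ∈ insert (Sum.inr w) S ↔ Sum.inl m' ∈ S) := by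
    intro w'; simp [Set.mem_insert_iff]
  have mr : ∀ w', w' ≠ w → (Sum.inr w' ∈ insert (Sum.inr w) S ↔ Sum.inr w' ∈ S) := by
    intro m' h; simp [Set.mem_insert_iff, h]
  have hup : ∀ w', (m, w') ∈ M → MPref (inst K var sgn) m w w' := hb.2.2.2.1
  have hdn : ∀ m', (m', w) ∈ M → WPref (inst K var sgn) w m m' := hb.2.2.2.2
  refine ⟨⟨⟨?_, ?_, ?_⟩, ?_, ?_, ?_, ?_, ?_⟩, ?_, ?_, ?_⟩
  · rintro a b ⟨h, _⟩; exact hI.mat.lt h
  · rintro a b b' ⟨h, _⟩ ⟨h', _⟩; exact hI.mat.man h h'
  · rintro a a' b ⟨h, _⟩ ⟨h', _⟩; exact hI.mat.woman h h'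
  · rintro a b ⟨h, h'⟩
    rw [ml, mr b h']
    exact hI.cls _ _ h
  · intro x hx h1 h2; exact upd_tT hI.toCore hS hx h1 h2
  · intro x hx h1 h2; exact upd_tF hI.toCore hS hx h1 h2
  · intro x hx
    rcases hI.x2 x hx with ⟨h1, h2, h3⟩ | ⟨h1, h2, h3⟩
    · by_cases hne : 6 * K + x = w
      · right
        subst hne
        have h4 := up_be hx (hdn _ h3)
        subst h4
        refine ⟨Or.inl rfl, hS hm, ?_⟩
        rw [upd_det (Or.inl hm)]
        refine hI.tT x hx hm fun h5 => ?_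
        exact up_a hx (hup _ (hI.x1 x hx hm h5))
      · left
        rw [mr _ hne, ml]
        exact ⟨h1, h2, h3, hne⟩
    · right
      exact ⟨hS h1, hS h2, by rw [upd_det (Or.inl h2)]; exact h3⟩
  · intro j hj
    rcases hI.cl j hj with h | ⟨h1, h2, h3, h4⟩
    · exact Or.inl (satC_mono hS h)
    · right
      have n0 : j ≠ w := by
        rintro rfl
        exact up_d hj (hdn _ h3)
      rcases h4 with ⟨h4, h5, h6, h7, h8, h9⟩ | ⟨h4, h5, h6⟩
      · have n1 : K + j ≠ w := by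
          rintro rfl
          have h := up_h hj (hdn _ h8)
          subst h; exact h4 hm
        have n2 : 2 * K + j ≠ w := by
          rintro rfl
          exact up_l hj (hdn _ h9)
        refine ⟨?_, ?_, ⟨h3, n0⟩, Or.inl ⟨?_, ?_, ?_, ?_, ⟨h8, n1⟩, ⟨h9, n2⟩⟩⟩
        · rw [ml]; exact h1
        · rw [mr _ n0]; exact h2
        · rw [ml]; exact h4
        · rw [mr _ n1]; exact h5
        · rw [ml]; exact h6
        · rw [mr _ n2]; exact h7
      · have n1 : K + j ≠ w := by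
          rintro rfl
          exact hw h5
        refine ⟨?_, ?_, ⟨h3, n0⟩, Or.inr ⟨hS h4, hS h5, ⟨h6, n1⟩⟩⟩
        · rw [ml]; exact h1
        · rw [mr _ n0]; exact h2
  · intro x hx h1 h2
    rw [ml] at h1
    by_cases hne : 3 * K + x = w
    · right; right; rw [hne]
    · rw [mr _ hne] at h2
      exact Or.inl ⟨hI.x1 x hx h1 h2, hne⟩
  · intro m1 h
    exact absurd h (by simp)
  · intro w1 h
    obtain rfl := Sum.inr.inj h
    left
    rintro m' ⟨_, h'⟩
    exact h' rfl

theorem step_two {M : Set (ℕ × ℕ)} {τ : ℕ → Bool} {S : Set Person}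
    (hI : Inv K var sgn M S τ) (hvar : ∀ o < 3 * K, var o < 3 * K) {m w : ℕ}
    (hno : ∀ m' w', Blocks (inst K var sgn) M m' w' → (Sum.inl m' ∈ S ↔ Sum.inr w' ∈ S))
    (hb : Blocks (inst K var sgn) M m w) (hm : Sum.inl m ∉ S) (hw : Sum.inr w ∉ S) :
    Inv K var sgn (insert (m, w) {q | q ∈ M ∧ q.1 ≠ m ∧ q.2 ≠ w})
      (insert (Sum.inl m) (insert (Sum.inr w) S))
      (upd K τ S (insert (Sum.inl m) (insert (Sum.inr w) S))) := by
  have hS : S ⊆ insert (Sum.inl m) (insert (Sum.inr w) S) :=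
    (Set.subset_insert _ _).trans (Set.subset_insert _ _)
  have ml : ∀ m', m' ≠ m →
      (Sum.inl m' ∈ insert (Sum.inl m) (insert (Sum.inr w) S) ↔ Sum.inl m' ∈ S) := by
    intro w' h; simp [Set.mem_insert_iff, h]
  have mr : ∀ w', w' ≠ w →
      (Sum.inr w' ∈ insert (Sum.inl m) (insert (Sum.inr w) S) ↔ Sum.inr w' ∈ S) := by
    intro m' h; simp [Set.mem_insert_iff, h]
  have inm : Sum.inl m ∈ insert (Sum.inl m) (insert (Sum.inr w) S) := Or.inl rfl
  have inw : Sum.inr w ∈ insert (Sum.inl m) (insert (Sum.inr w) S) := Or.inr (Or.inl rfl)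
  have hup : ∀ w', (m, w') ∈ M → MPref (inst K var sgn) m w w' := hb.2.2.2.1
  have hdn : ∀ m', (m', w) ∈ M → WPref (inst K var sgn) w m m' := hb.2.2.2.2
  -- no variable is half in `S`
  have hx0 : ∀ x < 3 * K, (Sum.inl (3 * K + x) ∈ S ↔ Sum.inr (3 * K + x) ∈ S) := by
    intro x hx
    by_cases h : (3 * K + x, 3 * K + x) ∈ M
    · exact hI.cls _ _ h
    · exact hno _ _ (block_ab hx h)
  refine ⟨⟨⟨?_, ?_, ?_⟩, ?_, ?_, ?_, ?_, ?_⟩, ?_⟩
  · rintro a b (h | ⟨h, _⟩)
    · obtain ⟨rfl, rfl⟩ := Prod.mk.inj h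
      exact ⟨hb.1, hb.2.1⟩
    · exact hI.mat.lt h
  · rintro a b b' (h | ⟨h, h1, h2⟩) (h' | ⟨h', h1', h2'⟩)
    · rw [(Prod.mk.inj h).2, (Prod.mk.inj h').2]
    · exact absurd (Prod.mk.inj h).1 h1'
    · exact absurd (Prod.mk.inj h').1 h1
    · exact hI.mat.man h h'
  · rintro a a' b (h | ⟨h, h1, h2⟩) (h' | ⟨h', h1', h2'⟩)
    · rw [(Prod.mk.inj h).1, (Prod.mk.inj h').1]
    · exact absurd (Prod.mk.inj h).2 h2'
    · exact absurd (Prod.mk.inj h').2 h2
    · exact hI.mat.woman h h'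
  · rintro a b (h | ⟨h, h1, h2⟩)
    · obtain ⟨rfl, rfl⟩ := Prod.mk.inj h
      exact ⟨fun _ => inw, fun _ => inm⟩
    · rw [ml _ h1, mr _ h2]
      exact hI.cls _ _ h
  · intro x hx h1 h2; exact upd_tT hI.toCore hS hx h1 h2
  · intro x hx h1 h2; exact upd_tF hI.toCore hS hx h1 h2
  · intro x hx
    rcases hI.x2 x hx with ⟨h1, h2, h3⟩ | ⟨h1, h2, h3⟩
    · have hne : 6 * K + x ≠ m := by
        rintro rfl
        exact up_al hx (hup _ h3)
      by_cases hnw : 6 * K + x = w
      · right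
        subst hnw
        have h4 := up_be hx (hdn _ h3)
        subst h4
        exact ⟨inw, inm, upd_newT hm (fun h => hm ((hx0 x hx).2 h)) inm⟩
      · left
        rw [ml _ hne, mr _ hnw]
        exact ⟨h1, h2, Or.inr ⟨h3, hne, hnw⟩⟩
    · right
      exact ⟨hS h1, hS h2, by rw [upd_det (Or.inl h2)]; exact h3⟩
  · intro j hj
    rcases hI.cl j hj with h | ⟨h1, h2, h3, h4⟩
    · exact Or.inl (satC_mono hS h)
    · have n0 : j ≠ w := by
        rintro rfl
        exact up_d hj (hdn _ h3)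
      by_cases hmj : m = j
      · subst hmj
        left
        rcases up_c hj (hup _ h3) with h5 | ⟨r, hr, h5⟩
        · exfalso
          subst h5
          rcases h4 with ⟨_, _, _, _, h4, _⟩ | ⟨_, h4, _⟩
          · have := up_h hj (hdn _ h4)
            omega
          · exact hw h4
        · have hx := hvar (3 * m + r) (by omega)
          refine ⟨r, hr, ?_⟩
          unfold lw at h5
          cases hs : sgn (3 * m + r) with
          | true =>
            exfalso
            rw [hs, if_pos rfl] at h5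
            subst h5
            rcases hI.x2 _ hx with ⟨_, _, h6⟩ | ⟨h6, _⟩
            · have := up_be hx (hdn _ h6)
              omega
            · exact hw h6
          | false =>
            rw [hs, if_neg (by simp)] at h5
            subst h5
            refine ⟨upd_newF (fun h => hw ((hx0 _ hx).1 h)) hw ?_, Or.inr inw⟩
            rw [ml _ (by omega)]
            exact fun h => hw ((hx0 _ hx).1 h)
      · right
        have hmj' : j ≠ m := fun h => hmj h.symm
        rcases h4 with ⟨h4, h5, h6, h7, h8, h9⟩ | ⟨h4, h5, h6⟩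
        · by_cases n1 : K + j = m
          · -- step 2 with the pair `(g, h)`
            have h10 : w = K + j := by
              subst n1
              rcases up_g hj (hup _ h9) with h | h
              · exact absurd h.symm n0
              · exact h
            subst h10
            subst n1
            refine ⟨?_, ?_, Or.inr ⟨h3, hmj', n0⟩, Or.inr ⟨inm, inw, Or.inl rfl⟩⟩
            · rw [ml _ hmj']; exact h1
            · rw [mr _ n0]; exact h2
          · have n2 : K + j ≠ w := by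
              rintro rfl
              exact n1 (up_h hj (hdn _ h8)).symm
            have n3 : 2 * K + j ≠ w := by
              rintro rfl
              exact up_l hj (hdn _ h9)
            have n4 : 2 * K + j ≠ m := by
              rintro rfl
              exact n3 (up_k hj (hup _ h8)).symm
            refine ⟨?_, ?_, Or.inr ⟨h3, hmj', n0⟩, Or.inl ⟨?_, ?_, ?_, ?_,
              Or.inr ⟨h8, n4, n2⟩, Or.inr ⟨h9, n1, n3⟩⟩⟩
            · rw [ml _ hmj']; exact h1
            · rw [mr _ n0]; exact h2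
            · rw [ml _ n1]; exact h4
            · rw [mr _ n2]; exact h5
            · rw [ml _ n4]; exact h6
            · rw [mr _ n3]; exact h7
        · have n1 : K + j ≠ m := by
            rintro rfl
            exact hm h4
          have n2 : K + j ≠ w := by
            rintro rfl
            exact hw h5
          refine ⟨?_, ?_, Or.inr ⟨h3, hmj', n0⟩, Or.inr ⟨hS h4, hS h5, Or.inr ⟨h6, n1, n2⟩⟩⟩
          · rw [ml _ hmj']; exact h1
          · rw [mr _ n0]; exact h2
  · intro x hx h1 h2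
    by_cases e1 : 3 * K + x = m
    · by_cases e2 : 3 * K + x = w
      · left; rw [← e1, ← e2]
      · rw [mr _ e2] at h2
        rw [← e1] at hm
        exact absurd ((hx0 x hx).2 h2) hm
    · rw [ml _ e1] at h1
      by_cases e2 : 3 * K + x = w
      · rw [← e2] at hw
        exact absurd ((hx0 x hx).1 h1) hw
      · exact Or.inr ⟨hI.x1 x hx h1 ((hx0 x hx).1 h1), e1, e2⟩

theorem step_inv {X Y : Set (ℕ × ℕ) × Set Person} {τ : ℕ → Bool}
    (hvar : ∀ o < 3 * K, var o < 3 * K) (hs : Step (inst K var sgn) X Y)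
    (hI : Inv K var sgn X.1 X.2 τ) : ∃ τ', Inv K var sgn Y.1 Y.2 τ' := by
  cases hs with
  | oneM hm hw hb hi => exact ⟨_, inner_inv hi (step_oneM hI hvar hm hw hb)⟩
  | oneW hw hm hb hi => exact ⟨_, inner_inv hi (step_oneW hI hw hm hb)⟩
  | two hno hb hm hw => exact ⟨_, step_two hI hvar hno hb hm hw⟩

/-- The initial matching. -/
def M₀ (K : ℕ) : Set (ℕ × ℕ) := {q | (q.1 < K ∧ q.2 = q.1) ∨
  (K ≤ q.1 ∧ q.1 < 2 * K ∧ q.2 = q.1 + K) ∨ (2 * K ≤ q.1 ∧ q.1 < 3 * K ∧ q.2 + K = q.1) ∨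
  (6 * K ≤ q.1 ∧ q.1 < 9 * K ∧ q.2 = q.1)}

/-- The target matching. -/
def M₁ (K : ℕ) : Set (ℕ × ℕ) := {q | (q.1 < K ∧ q.2 = q.1 + K) ∨
  (K ≤ q.1 ∧ q.1 < 2 * K ∧ q.2 + K = q.1) ∨ (2 * K ≤ q.1 ∧ q.1 < 9 * K ∧ q.2 = q.1)}

theorem inv_start (hK : 0 < K) : Inv K var sgn (M₀ K) ∅ (fun _ => false) := by
  refine ⟨⟨⟨?_, ?_, ?_⟩, ?_, ?_, ?_, ?_, ?_⟩, ?_⟩
  · rintro m w h
    rw [size_inst]
    simp only [M₀, Set.mem_ofPred_eq] at h
    omega
  · rintro m w w' h h'
    simp only [M₀, Set.mem_ofPred_eq] at h h'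
    omega
  · rintro m m' w h h'
    simp only [M₀, Set.mem_ofPred_eq] at h h'
    omega
  · rintro m w h
    simp
  · intro x hx h; simp at h
  · intro x hx h; simp at h
  · intro x hx
    left
    refine ⟨by simp, by simp, Or.inr (Or.inr (Or.inr ⟨?_, ?_, rfl⟩))⟩
    · simp only; omega
    · simp only; omega
  · intro j hj
    right
    refine ⟨by simp, by simp, Or.inl ⟨hj, rfl⟩, Or.inl ⟨by simp, by simp, by simp, by simp,
      Or.inr (Or.inr (Or.inl ⟨?_, ?_, ?_⟩)), Or.inr (Or.inl ⟨?_, ?_, ?_⟩)⟩⟩ <;>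
    · simp only
      omega
  · intro x hx h; simp at h

/-- If the target matching is reached then the formula is satisfiable. -/
theorem sat_of_reaches (hK : 0 < K) (hvar : ∀ o < 3 * K, var o < 3 * K)
    (h : Reaches (inst K var sgn) (M₀ K) (M₁ K)) :
    ∃ τ : ℕ → Bool, ∀ j < K, ∃ r < 3, τ (var (3 * j + r)) = sgn (3 * j + r) := by
  obtain ⟨_, S, hS⟩ := h
  have key : ∀ Y, Relation.ReflTransGen (Step (inst K var sgn)) (M₀ K, ∅) Y →
      ∃ τ, Inv K var sgn Y.1 Y.2 τ := by
    intro Y hY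
    induction hY with
    | refl => exact ⟨_, inv_start hK⟩
    | tail _ hs ih =>
      obtain ⟨τ, hτ⟩ := ih
      exact step_inv hvar hs hτ
  obtain ⟨τ, hτ⟩ := key _ hS
  refine ⟨τ, fun j hj => ?_⟩
  rcases hτ.cl j hj with ⟨r, hr, h1, _⟩ | ⟨_, _, h1, _⟩
  · exact ⟨r, hr, h1⟩
  · simp only [M₁, Set.mem_ofPred_eq] at h1
    omega

end Pool.Agent.H519_RV
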