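import Pool.Agent.H519_RV.Comp

/-!
# The reduction
-/

namespace Pool.Agent.H519_RV

open Pool.Agent.NPC Pool.Agent.H420.Gr

/-! ### The lists are permutations -/

theorem full_perm {n : ℕ} {P : List ℕ} (h1 : P.Nodup) (h2 : ∀ i ∈ P, i < n) :
    (full n P).Perm (List.range n) := by
  unfold full
  rw [List.perm_ext_iff_of_nodup _ List.nodup_range]
  · intro a
    rw [List.mem_append, List.mem_filter, List.mem_range]
    by_cases ha : a ∈ P
    · simp [ha, h2 a ha]
    · simp [ha]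
  · rw [List.nodup_append]
    refine ⟨h1, List.nodup_range.filter _, ?_⟩
    intro a ha b hb hab
    subst hab
    rw [List.mem_filter] at hb
    simp [ha] at hb

theorem lw_eq {K : ℕ} {var : ℕ → ℕ} {sgn : ℕ → Bool} (hvar : ∀ o < 3 * K, var o < 3 * K)
    {o o' : ℕ} (ho : o < 3 * K) (ho' : o' < 3 * K) (h : lw K var sgn o = lw K var sgn o') :
    var o = var o' := by
  have h1 := hvar o ho
  have h2 := hvar o' ho'
  unfold lw at h
  split_ifs at h <;> omega

theorem manPre_ok {K : ℕ} {var : ℕ → ℕ} {sgn : ℕ → Bool} (hvar : ∀ o < 3 * K, var o < 3 * K)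
    (hd : ∀ j < K, var (3 * j) ≠ var (3 * j + 1) ∧ var (3 * j) ≠ var (3 * j + 2) ∧
      var (3 * j + 1) ≠ var (3 * j + 2)) {m : ℕ} (hm : m < 9 * K) :
    (manPre K var sgn m).Nodup ∧ ∀ i ∈ manPre K var sgn m, i < 9 * K := by
  unfold manPre
  split_ifs with h1 h2 h3 h4
  · obtain ⟨d1, d2, d3⟩ := hd m h1
    have e1 : lw K var sgn (3 * m) ≠ lw K var sgn (3 * m + 1) := fun h =>
      d1 (lw_eq hvar (by omega) (by omega) h)
    have e2 : lw K var sgn (3 * m) ≠ lw K var sgn (3 * m + 2) := fun h =>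
      d2 (lw_eq hvar (by omega) (by omega) h)
    have e3 : lw K var sgn (3 * m + 1) ≠ lw K var sgn (3 * m + 2) := fun h =>
      d3 (lw_eq hvar (by omega) (by omega) h)
    have g1 : 3 * K ≤ lw K var sgn (3 * m) := lw_ge
    have g2 : 3 * K ≤ lw K var sgn (3 * m + 1) := lw_ge
    have g3 : 3 * K ≤ lw K var sgn (3 * m + 2) := lw_ge
    have l1 : lw K var sgn (3 * m) < 9 * K := lw_lt hvar (by omega)
    have l2 : lw K var sgn (3 * m + 1) < 9 * K := lw_lt hvar (by omega)
    have l3 : lw K var sgn (3 * m + 2) < 9 * K := lw_lt hvar (by omega)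
    simp only [List.nodup_cons, List.mem_cons, List.not_mem_nil, or_false, List.nodup_nil,
      not_false_eq_true, and_true, forall_eq_or_imp, forall_eq]
    omega
  · simp only [List.nodup_cons, List.mem_cons, List.not_mem_nil, or_false, List.nodup_nil,
      not_false_eq_true, and_true, forall_eq_or_imp, forall_eq]
    omega
  · simp only [List.nodup_cons, List.mem_cons, List.not_mem_nil, or_false, List.nodup_nil,
      not_false_eq_true, and_true, forall_eq_or_imp, forall_eq]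
    omega
  · simp only [List.nodup_cons, List.mem_cons, List.not_mem_nil, or_false, List.nodup_nil,
      not_false_eq_true, and_true, forall_eq_or_imp, forall_eq]
    omega
  · simp [hm]

theorem womanPre_ok {K w : ℕ} (hw : w < 9 * K) :
    (womanPre K w).Nodup ∧ ∀ i ∈ womanPre K w, i < 9 * K := by
  unfold womanPre
  split_ifs with h1 h2 h3 h4
  · simp only [List.nodup_cons, List.mem_cons, List.not_mem_nil, or_false, List.nodup_nil,
      not_false_eq_true, and_true, forall_eq_or_imp, forall_eq]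
    omega
  · simp only [List.nodup_cons, List.mem_cons, List.not_mem_nil, or_false, List.nodup_nil,
      not_false_eq_true, and_true, forall_eq_or_imp, forall_eq]
    omega
  · simp only [List.nodup_cons, List.mem_cons, List.not_mem_nil, or_false, List.nodup_nil,
      not_false_eq_true, and_true, forall_eq_or_imp, forall_eq]
    omega
  · simp [hw]
  · simp only [List.nodup_cons, List.mem_cons, List.not_mem_nil, or_false, List.nodup_nil,
      not_false_eq_true, and_true, forall_eq_or_imp, forall_eq]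
    omega

theorem valid_inst {K : ℕ} {var : ℕ → ℕ} {sgn : ℕ → Bool} (hvar : ∀ o < 3 * K, var o < 3 * K)
    (hd : ∀ j < K, var (3 * j) ≠ var (3 * j + 1) ∧ var (3 * j) ≠ var (3 * j + 2) ∧
      var (3 * j + 1) ≠ var (3 * j + 2)) : Valid (inst K var sgn) := by
  refine ⟨?_, ?_, ?_⟩
  · rw [size_inst]
    simp [inst]
  · intro L hL
    rw [size_inst]
    simp only [inst, List.mem_map, List.mem_range] at hL
    obtain ⟨m, hm, rfl⟩ := hL
    obtain ⟨h1, h2⟩ := manPre_ok (sgn := sgn) hvar hd hm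
    exact full_perm h1 h2
  · intro L hL
    rw [size_inst]
    simp only [inst, List.mem_map, List.mem_range] at hL
    obtain ⟨w, hw, rfl⟩ := hL
    obtain ⟨h1, h2⟩ := womanPre_ok hw
    exact full_perm h1 h2

/-! ### The two matchings -/

variable {K : ℕ} {var : ℕ → ℕ} {sgn : ℕ → Bool}

theorem mat₀ : IsMatching (inst K var sgn) (M₀ K) := by
  constructor
  · rintro m w h
    rw [size_inst]
    simp only [M₀, Set.mem_ofPred_eq] at h
    omega
  · rintro m w w' h h'
    simp only [M₀, Set.mem_ofPred_eq] at h h'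
    omega
  · rintro m m' w h h'
    simp only [M₀, Set.mem_ofPred_eq] at h h'
    omega

theorem mat₁ : IsMatching (inst K var sgn) (M₁ K) := by
  constructor
  · rintro m w h
    rw [size_inst]
    simp only [M₁, Set.mem_ofPred_eq] at h
    omega
  · rintro m w w' h h'
    simp only [M₁, Set.mem_ofPred_eq] at h h'
    omega
  · rintro m m' w h h'
    simp only [M₁, Set.mem_ofPred_eq] at h h'
    omega

theorem stable₁ : Stable (inst K var sgn) (M₁ K) := by
  refine ⟨mat₁, ?_⟩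
  rintro m w ⟨hm, _, _, h, _⟩
  rw [size_inst] at hm
  rcases kinds hm with ⟨j, hj, rfl⟩ | ⟨j, hj, rfl⟩ | ⟨j, hj, rfl⟩ | ⟨x, hx, rfl⟩ | ⟨x, hx, rfl⟩
  · exact up_ct hj (h (K + m) (Or.inl ⟨hj, by change K + m = m + K; omega⟩))
  · exact up_gt hj (h j (Or.inr (Or.inl ⟨by change K ≤ K + j; omega,
      by change K + j < 2 * K; omega, by change j + K = K + j; omega⟩)))
  · exact up_kt hj (h (2 * K + j) (Or.inr (Or.inr ⟨by change 2 * K ≤ 2 * K + j; omega,
      by change 2 * K + j < 9 * K; omega, rfl⟩)))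
  · exact up_a hx (h (3 * K + x) (Or.inr (Or.inr ⟨by change 2 * K ≤ 3 * K + x; omega,
      by change 3 * K + x < 9 * K; omega, rfl⟩)))
  · exact up_al hx (h (6 * K + x) (Or.inr (Or.inr ⟨by change 2 * K ≤ 6 * K + x; omega,
      by change 6 * K + x < 9 * K; omega, rfl⟩)))

/-- The pairs `(f i, g i)` for `i < n`. -/
def prs (n : ℕ) (f g : ℕ → ℕ) : List (ℕ × ℕ) := (List.range n).map (fun i => (f i, g i))

theorem mem_prs {n : ℕ} {f g : ℕ → ℕ} {a b : ℕ} :
    (a, b) ∈ prs n f g ↔ ∃ i < n, f i = a ∧ g i = b := by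
  simp [prs]

/-- The initial matching as a list. -/
def m0l (K : ℕ) : List (ℕ × ℕ) :=
  prs K (fun i => i) (fun i => i) ++ (prs K (fun i => K + i) (fun i => 2 * K + i) ++
    (prs K (fun i => 2 * K + i) (fun i => K + i) ++
      prs (3 * K) (fun i => 6 * K + i) (fun i => 6 * K + i)))

/-- The target matching as a list. -/
def m1l (K : ℕ) : List (ℕ × ℕ) :=
  prs K (fun i => i) (fun i => K + i) ++ (prs K (fun i => K + i) (fun i => i) ++
    prs (7 * K) (fun i => 2 * K + i) (fun i => 2 * K + i))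

theorem m0l_eq : {q | q ∈ m0l K} = M₀ K := by
  ext ⟨a, b⟩
  simp only [m0l, M₀, Set.mem_ofPred_eq, List.mem_append, mem_prs]
  constructor
  · rintro (⟨i, hi, h1, h2⟩ | ⟨i, hi, h1, h2⟩ | ⟨i, hi, h1, h2⟩ | ⟨i, hi, h1, h2⟩) <;> omega
  · rintro (⟨h1, h2⟩ | ⟨h1, h2, h3⟩ | ⟨h1, h2, h3⟩ | ⟨h1, h2, h3⟩)
    · exact Or.inl ⟨a, h1, rfl, h2.symm⟩
    · exact Or.inr (Or.inl ⟨a - K, by omega, by omega, by omega⟩)
    · exact Or.inr (Or.inr (Or.inl ⟨a - 2 * K, by omega, by omega, by omega⟩))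
    · exact Or.inr (Or.inr (Or.inr ⟨a - 6 * K, by omega, by omega, by omega⟩))

theorem m1l_eq : {q | q ∈ m1l K} = M₁ K := by
  ext ⟨a, b⟩
  simp only [m1l, M₁, Set.mem_ofPred_eq, List.mem_append, mem_prs]
  constructor
  · rintro (⟨i, hi, h1, h2⟩ | ⟨i, hi, h1, h2⟩ | ⟨i, hi, h1, h2⟩) <;> omega
  · rintro (⟨h1, h2⟩ | ⟨h1, h2, h3⟩ | ⟨h1, h2, h3⟩)
    · exact Or.inl ⟨a, h1, rfl, by omega⟩
    · exact Or.inr (Or.inl ⟨a - K, by omega, by omega, by omega⟩)
    · exact Or.inr (Or.inr ⟨a - 2 * K, by omega, by omega, by omega⟩)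

/-! ### The reduction -/

abbrev Fml : Type := List (Lit ℕ × Lit ℕ × Lit ℕ)

/-- The reduction. -/
def red (φ : Fml) : Inst × List (ℕ × ℕ) × List (ℕ × ℕ) :=
  (inst φ.length (vr φ) (sg φ), m0l φ.length, m1l φ.length)

theorem poly_lw {α : Type} [TEnc α] {φ : α → Fml} {o : α → ℕ} (hφ : Poly φ) (ho : Poly o) :
    Poly (fun a => lw (φ a).length (vr (φ a)) (sg (φ a)) (o a)) := by
  have hK : Poly (fun a => (φ a).length) := NPC.Poly.length hφ
  have c : ∀ n : ℕ, Poly (fun _ : α => n) := fun n => NPC.Poly.const n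
  unfold lw
  exact NPC.Poly.ite (p := fun a => sg (φ a) (o a) = true)
    (Poly.decide_eq (poly_sg hφ ho) (NPC.Poly.const true))
    (Poly.add (Poly.mul (c 6) hK) (poly_vr hφ ho)) (Poly.add (Poly.mul (c 3) hK) (poly_vr hφ ho))

theorem poly_manPre : Poly (fun x : Fml × ℕ =>
    manPre x.1.length (vr x.1) (sg x.1) x.2) := by
  have hφ : Poly (fun x : Fml × ℕ => x.1) := Poly.fst Poly.id
  have hm : Poly (fun x : Fml × ℕ => x.2) := Poly.snd Poly.id
  have hK : Poly (fun x : Fml × ℕ => x.1.length) := NPC.Poly.length hφ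
  have c : ∀ n : ℕ, Poly (fun _ : Fml × ℕ => n) := fun n => NPC.Poly.const n
  have h2 : Poly (fun x : Fml × ℕ => 2 * x.1.length) := Poly.mul (c 2) hK
  have h3 : Poly (fun x : Fml × ℕ => 3 * x.1.length) := Poly.mul (c 3) hK
  have h6 : Poly (fun x : Fml × ℕ => 6 * x.1.length) := Poly.mul (c 6) hK
  have nil : Poly (fun _ : Fml × ℕ => ([] : List ℕ)) := NPC.Poly.const _
  have h3m : Poly (fun x : Fml × ℕ => 3 * x.2) := Poly.mul (c 3) hm
  unfold manPre
  refine NPC.Poly.ite (Poly.decide_lt hm hK) ?_ (NPC.Poly.ite (Poly.decide_lt hm h2) ?_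
    (NPC.Poly.ite (Poly.decide_lt hm h3) ?_ (NPC.Poly.ite (Poly.decide_lt hm h6) ?_ ?_)))
  · exact Poly.cons (Poly.add hK hm) (Poly.cons (poly_lw hφ h3m) (Poly.cons
      (poly_lw hφ (Poly.add h3m (c 1))) (Poly.cons (poly_lw hφ (Poly.add h3m (c 2)))
        (Poly.cons hm nil))))
  · exact Poly.cons (Poly.sub hm hK) (Poly.cons hm (Poly.cons (Poly.add hm hK) nil))
  · exact Poly.cons hm (Poly.cons (Poly.sub hm hK) nil)
  · exact Poly.cons hm (Poly.cons (Poly.add hm h3) nil)
  · exact Poly.cons hm nil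

theorem poly_womanPre : Poly (fun x : Fml × ℕ => womanPre x.1.length x.2) := by
  have hφ : Poly (fun x : Fml × ℕ => x.1) := Poly.fst Poly.id
  have hm : Poly (fun x : Fml × ℕ => x.2) := Poly.snd Poly.id
  have hK : Poly (fun x : Fml × ℕ => x.1.length) := NPC.Poly.length hφ
  have c : ∀ n : ℕ, Poly (fun _ : Fml × ℕ => n) := fun n => NPC.Poly.const n
  have h2 : Poly (fun x : Fml × ℕ => 2 * x.1.length) := Poly.mul (c 2) hK
  have h3 : Poly (fun x : Fml × ℕ => 3 * x.1.length) := Poly.mul (c 3) hK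
  have h6 : Poly (fun x : Fml × ℕ => 6 * x.1.length) := Poly.mul (c 6) hK
  have nil : Poly (fun _ : Fml × ℕ => ([] : List ℕ)) := NPC.Poly.const _
  unfold womanPre
  refine NPC.Poly.ite (Poly.decide_lt hm hK) ?_ (NPC.Poly.ite (Poly.decide_lt hm h2) ?_
    (NPC.Poly.ite (Poly.decide_lt hm h3) ?_ (NPC.Poly.ite (Poly.decide_lt hm h6) ?_ ?_)))
  · exact Poly.cons hm (Poly.cons (Poly.add hm hK) nil)
  · exact Poly.cons hm (Poly.cons (Poly.add hm hK) (Poly.cons (Poly.sub hm hK) nil))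
  · exact Poly.cons (Poly.sub hm hK) (Poly.cons hm nil)
  · exact Poly.cons hm nil
  · exact Poly.cons (Poly.sub hm h3) (Poly.cons hm nil)

theorem poly_full {P : Fml → ℕ → List ℕ} (hP : Poly (fun x : Fml × ℕ => P x.1 x.2)) :
    Poly (fun x : Fml × ℕ => full (9 * x.1.length) (P x.1 x.2)) := by
  have hφ : Poly (fun x : Fml × ℕ => x.1) := Poly.fst Poly.id
  have hK : UPoly (fun x : Fml × ℕ => x.1.length) := UPoly.length hφ
  have h9 : UPoly (fun x : Fml × ℕ => 9 * x.1.length) := UPoly.mul (UPoly.const 9) hK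
  unfold full
  refine NPC.Poly.append hP (NPC.Poly.filter
    (p := fun (x : Fml × ℕ) i => !decide (i ∈ P x.1 x.2)) h9.range ?_)
  exact NPC.Poly.not (Poly.decide_mem (Poly.snd Poly.id) (hP.comp (Poly.fst Poly.id)))

theorem poly_prs {n : Fml → ℕ} {f g : Fml → ℕ → ℕ} (hn : UPoly n)
    (hf : Poly (fun x : Fml × ℕ => f x.1 x.2)) (hg : Poly (fun x : Fml × ℕ => g x.1 x.2)) :
    Poly (fun φ => prs (n φ) (f φ) (g φ)) := by
  unfold prs
  exact NPC.Poly.map (F := fun (φ : Fml) i => (f φ i, g φ i)) hn.range (Poly.pair hf hg)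

theorem red_poly : Poly red := by
  have hK : UPoly (fun φ : Fml => φ.length) := UPoly.length Poly.id
  have h9 : UPoly (fun φ : Fml => 9 * φ.length) := UPoly.mul (UPoly.const 9) hK
  have h7 : UPoly (fun φ : Fml => 7 * φ.length) := UPoly.mul (UPoly.const 7) hK
  have h3 : UPoly (fun φ : Fml => 3 * φ.length) := UPoly.mul (UPoly.const 3) hK
  have hφ : Poly (fun x : Fml × ℕ => x.1) := Poly.fst Poly.id
  have hm : Poly (fun x : Fml × ℕ => x.2) := Poly.snd Poly.id
  have k1 : Poly (fun x : Fml × ℕ => x.1.length) := NPC.Poly.length hφ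
  have c : ∀ n : ℕ, Poly (fun _ : Fml × ℕ => n) := fun n => NPC.Poly.const n
  have a1 : Poly (fun x : Fml × ℕ => x.1.length + x.2) := Poly.add k1 hm
  have a2 : Poly (fun x : Fml × ℕ => 2 * x.1.length + x.2) := Poly.add (Poly.mul (c 2) k1) hm
  have a6 : Poly (fun x : Fml × ℕ => 6 * x.1.length + x.2) := Poly.add (Poly.mul (c 6) k1) hm
  unfold red inst m0l m1l
  refine Poly.pair (Poly.pair ?_ ?_) (Poly.pair ?_ ?_)
  · exact NPC.Poly.map (F := fun (φ : Fml) m =>
      full (9 * φ.length) (manPre φ.length (vr φ) (sg φ) m)) h9.range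
      (poly_full (P := fun φ m => manPre φ.length (vr φ) (sg φ) m) poly_manPre)
  · exact NPC.Poly.map (F := fun (φ : Fml) w =>
      full (9 * φ.length) (womanPre φ.length w)) h9.range
      (poly_full (P := fun φ w => womanPre φ.length w) poly_womanPre)
  · exact NPC.Poly.append (poly_prs (f := fun _ i => i) (g := fun _ i => i) hK hm hm)
      (NPC.Poly.append (poly_prs (f := fun φ i => φ.length + i) (g := fun φ i => 2 * φ.length + i)
        hK a1 a2) (NPC.Poly.append (poly_prs (f := fun φ i => 2 * φ.length + i)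
          (g := fun φ i => φ.length + i) hK a2 a1)
          (poly_prs (f := fun φ i => 6 * φ.length + i) (g := fun φ i => 6 * φ.length + i)
            h3 a6 a6)))
  · exact NPC.Poly.append (poly_prs (f := fun _ i => i) (g := fun φ i => φ.length + i) hK hm a1)
      (NPC.Poly.append (poly_prs (f := fun φ i => φ.length + i) (g := fun _ i => i) hK a1 hm)
        (poly_prs (f := fun φ i => 2 * φ.length + i) (g := fun φ i => 2 * φ.length + i)
            h7 a2 a2))

/-- The well formed inputs of REACH. -/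
def Input (X : Inst × List (ℕ × ℕ) × List (ℕ × ℕ)) : Prop :=
  Valid X.1 ∧ IsMatching X.1 {q | q ∈ X.2.1} ∧ Stable X.1 {q | q ∈ X.2.2}

theorem distinct_vr {φ : Fml} (h : Distinct3 φ) : ∀ j < φ.length,
    vr φ (3 * j) ≠ vr φ (3 * j + 1) ∧ vr φ (3 * j) ≠ vr φ (3 * j + 2) ∧
      vr φ (3 * j + 1) ≠ vr φ (3 * j + 2) := by
  intro j hj
  obtain ⟨h0, h1, h2⟩ := lits_getD φ j hj
  obtain ⟨g0, g1, g2⟩ := h _ (List.getElem_mem hj)
  unfold vr
  rw [h0, h1, h2]
  exact ⟨g0, g1, g2⟩

theorem red_input {φ : Fml} (h1 : Distinct3 φ) (h2 : Bounded3 φ) : Input (red φ) := by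
  refine ⟨valid_inst (fun o ho => vr_lt h2 ho) (distinct_vr h1), ?_, ?_⟩
  · change IsMatching _ {q | q ∈ m0l φ.length}
    rw [m0l_eq]
    exact mat₀
  · change Stable _ {q | q ∈ m1l φ.length}
    rw [m1l_eq]
    exact stable₁

theorem red_iff {φ : Fml} (h2 : Bounded3 φ) (hne : φ ≠ []) :
    SAT3 φ ↔ Reaches (red φ).1 {q | q ∈ (red φ).2.1} {q | q ∈ (red φ).2.2} := by
  change SAT3 φ ↔ Reaches (inst φ.length (vr φ) (sg φ)) {q | q ∈ m0l φ.length}
    {q | q ∈ m1l φ.length}
  rw [m0l_eq, m1l_eq, sat_iff]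
  constructor
  · intro h
    exact ⟨stable₁, path_of_sat (fun o ho => vr_lt h2 ho) h⟩
  · intro h
    exact sat_of_reaches (List.length_pos_iff.2 hne) (fun o ho => vr_lt h2 ho) h

theorem hardPr_reach : HardPr Input (fun X => Reaches X.1 {q | q ∈ X.2.1} {q | q ∈ X.2.2}) :=
  HardPr.trans hardPr_SAT3b red_poly (fun _ h => red_input h.1 h.2.1)
    (fun _ h => red_iff h.2.1 h.2.2)

theorem hard_reach : NPHardP Reach := by
  refine HardI.toNPHardP ?_
  intro L hL
  obtain ⟨f, hf, hi, hx⟩ := hardPr_reach L hL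
  refine ⟨f, hf, fun x => ?_⟩
  rw [hx x]
  constructor
  · intro h
    exact ⟨(hi x).1, (hi x).2.1, (hi x).2.2, h⟩
  · intro h
    exact h.2.2.2

end Pool.Agent.H519_RV
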