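import Pool.Agent.H519_RV.Defs

/-!
# The instance of the reduction and its preferences

`K` clauses; variables are numbered below `3 K`.  Men: `c j = j`, `g j = K + j`, `k j = 2 K + j` for
the clauses, `a x = 3 K + x`, `α x = 6 K + x` for the variables.  Women: `d j = j`, `h j = K + j`,
`l j = 2 K + j`, `b x = 3 K + x`, `β x = 6 K + x`.
-/

namespace Pool.Agent.H519_RV

open Pool.Agent.NPC

/-- The list `P` completed by all other numbers below `n`. -/
def full (n : ℕ) (P : List ℕ) : List ℕ := P ++ (List.range n).filter (fun i => !decide (i ∈ P))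

/-- The woman of a literal. -/
def lw (K : ℕ) (var : ℕ → ℕ) (sgn : ℕ → Bool) (o : ℕ) : ℕ :=
  if sgn o = true then 6 * K + var o else 3 * K + var o

/-- The beginning of the list of a man. -/
def manPre (K : ℕ) (var : ℕ → ℕ) (sgn : ℕ → Bool) (m : ℕ) : List ℕ :=
  if m < K then
    [K + m, lw K var sgn (3 * m), lw K var sgn (3 * m + 1), lw K var sgn (3 * m + 2), m]
  else if m < 2 * K then [m - K, m, m + K]
  else if m < 3 * K then [m, m - K]
  else if m < 6 * K then [m, m + 3 * K]
  else [m]

/-- The beginning of the list of a woman. -/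
def womanPre (K : ℕ) (w : ℕ) : List ℕ :=
  if w < K then [w, w + K]
  else if w < 2 * K then [w, w + K, w - K]
  else if w < 3 * K then [w - K, w]
  else if w < 6 * K then [w]
  else [w - 3 * K, w]

/-- The instance. -/
def inst (K : ℕ) (var : ℕ → ℕ) (sgn : ℕ → Bool) : Inst :=
  ((List.range (9 * K)).map (fun m => full (9 * K) (manPre K var sgn m)),
    (List.range (9 * K)).map (fun w => full (9 * K) (womanPre K w)))

variable {K : ℕ} {var : ℕ → ℕ} {sgn : ℕ → Bool}

theorem size_inst : size (inst K var sgn) = 9 * K := by simp [size, inst]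

theorem idx_cons (x y : ℕ) (l : List ℕ) :
    (x :: l).idxOf y = if x = y then 0 else l.idxOf y + 1 := by
  by_cases h : x = y
  · subst h; simp
  · rw [if_neg h, List.idxOf_cons_ne _ h]

theorem full_lt {n : ℕ} {P : List ℕ} {a q : ℕ} (hq : q ∈ P)
    (h : (full n P).idxOf a < (full n P).idxOf q) : a ∈ P ∧ P.idxOf a < P.idxOf q := by
  unfold full at h
  rw [List.idxOf_append_of_mem hq] at h
  have hlt := List.idxOf_lt_length_of_mem hq
  by_cases ha : a ∈ P
  · rw [List.idxOf_append_of_mem ha] at h
    exact ⟨ha, h⟩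
  · rw [List.idxOf_append_of_notMem ha] at h
    omega

theorem full_of {n : ℕ} {P : List ℕ} {a q : ℕ} (ha : a ∈ P) (h : q ∉ P ∨ P.idxOf a < P.idxOf q) :
    (full n P).idxOf a < (full n P).idxOf q := by
  unfold full
  rw [List.idxOf_append_of_mem ha]
  have hlt := List.idxOf_lt_length_of_mem ha
  by_cases hq : q ∈ P
  · rw [List.idxOf_append_of_mem hq]
    rcases h with h | h
    · exact absurd hq h
    · exact h
  · rw [List.idxOf_append_of_notMem hq]
    omega

theorem getD_map_range (f : ℕ → List ℕ) {n i : ℕ} (h : i < n) :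
    ((List.range n).map f).getD i [] = f i := by
  simp [List.getD_eq_getElem?_getD, h]

theorem mpref_iff {m w w' : ℕ} (hm : m < 9 * K) : MPref (inst K var sgn) m w w' ↔
    (full (9 * K) (manPre K var sgn m)).idxOf w < (full (9 * K) (manPre K var sgn m)).idxOf w' := by
  unfold MPref inst
  simp only [getD_map_range _ hm]

theorem wpref_iff {m m' w : ℕ} (hw : w < 9 * K) : WPref (inst K var sgn) w m m' ↔
    (full (9 * K) (womanPre K w)).idxOf m < (full (9 * K) (womanPre K w)).idxOf m' := by
  unfold WPref inst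
  simp only [getD_map_range _ hw]

/-! ### Preferences of men -/

theorem pre_c {j : ℕ} (hj : j < K) : manPre K var sgn j =
    [K + j, lw K var sgn (3 * j), lw K var sgn (3 * j + 1), lw K var sgn (3 * j + 2), j] := by
  unfold manPre; rw [if_pos hj]

theorem pre_g {j : ℕ} (hj : j < K) : manPre K var sgn (K + j) = [j, K + j, 2 * K + j] := by
  unfold manPre
  rw [if_neg (by omega), if_pos (by omega)]
  congr 1
  · omega
  · congr 2; omega

theorem pre_k {j : ℕ} (hj : j < K) : manPre K var sgn (2 * K + j) = [2 * K + j, K + j] := by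
  unfold manPre
  rw [if_neg (by omega), if_neg (by omega), if_pos (by omega)]
  congr 2; omega

theorem pre_a {x : ℕ} (hx : x < 3 * K) :
    manPre K var sgn (3 * K + x) = [3 * K + x, 6 * K + x] := by
  unfold manPre
  rw [if_neg (by omega), if_neg (by omega), if_neg (by omega), if_pos (by omega)]
  congr 2; omega

theorem pre_al {x : ℕ} : manPre K var sgn (6 * K + x) = [6 * K + x] := by
  unfold manPre
  rw [if_neg (by omega), if_neg (by omega), if_neg (by omega), if_neg (by omega)]

theorem pre_d {j : ℕ} (hj : j < K) : womanPre K j = [j, K + j] := by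
  unfold womanPre; rw [if_pos hj]
  congr 2; omega

theorem pre_h {j : ℕ} (hj : j < K) : womanPre K (K + j) = [K + j, 2 * K + j, j] := by
  unfold womanPre
  rw [if_neg (by omega), if_pos (by omega)]
  congr 2
  · omega
  · congr 1; omega

theorem pre_l {j : ℕ} (hj : j < K) : womanPre K (2 * K + j) = [K + j, 2 * K + j] := by
  unfold womanPre
  rw [if_neg (by omega), if_neg (by omega), if_pos (by omega)]
  congr 1; omega

theorem pre_b {x : ℕ} (hx : x < 3 * K) : womanPre K (3 * K + x) = [3 * K + x] := by
  unfold womanPre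
  rw [if_neg (by omega), if_neg (by omega), if_neg (by omega), if_pos (by omega)]

theorem pre_be {x : ℕ} : womanPre K (6 * K + x) = [3 * K + x, 6 * K + x] := by
  unfold womanPre
  rw [if_neg (by omega), if_neg (by omega), if_neg (by omega), if_neg (by omega)]
  congr 1; omega

theorem up_c {j w : ℕ} (hj : j < K) (h : MPref (inst K var sgn) j w j) :
    w = K + j ∨ ∃ r < 3, w = lw K var sgn (3 * j + r) := by
  rw [mpref_iff (by omega), pre_c hj] at h
  obtain ⟨h1, h2⟩ := full_lt (by simp) h
  have h3 : w ≠ j := by rintro rfl; omega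
  simp only [List.mem_cons, List.not_mem_nil, or_false] at h1
  rcases h1 with h1 | h1 | h1 | h1 | h1
  · exact Or.inl h1
  · exact Or.inr ⟨0, by omega, h1⟩
  · exact Or.inr ⟨1, by omega, h1⟩
  · exact Or.inr ⟨2, by omega, h1⟩
  · exact absurd h1 h3

theorem up_g {j w : ℕ} (hj : j < K) (h : MPref (inst K var sgn) (K + j) w (2 * K + j)) :
    w = j ∨ w = K + j := by
  rw [mpref_iff (by omega), pre_g hj] at h
  obtain ⟨h1, h2⟩ := full_lt (by simp) h
  have h3 : w ≠ 2 * K + j := by rintro rfl; omega
  simp only [List.mem_cons, List.not_mem_nil, or_false] at h1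
  omega

theorem up_g' {j w : ℕ} (hj : j < K) (h : MPref (inst K var sgn) (K + j) w (K + j)) : w = j := by
  rw [mpref_iff (by omega), pre_g hj] at h
  obtain ⟨h1, h2⟩ := full_lt (by simp) h
  simp only [List.mem_cons, List.not_mem_nil, or_false] at h1
  rw [idx_cons, idx_cons, idx_cons, idx_cons, idx_cons, idx_cons] at h2
  split_ifs at h2 <;> omega

theorem up_gt {j w : ℕ} (hj : j < K) (h : MPref (inst K var sgn) (K + j) w j) : False := by
  rw [mpref_iff (by omega), pre_g hj] at h
  obtain ⟨h1, h2⟩ := full_lt (by simp) h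
  simp at h2

theorem up_k {j w : ℕ} (hj : j < K) (h : MPref (inst K var sgn) (2 * K + j) w (K + j)) :
    w = 2 * K + j := by
  rw [mpref_iff (by omega), pre_k hj] at h
  obtain ⟨h1, h2⟩ := full_lt (by simp) h
  have h3 : w ≠ K + j := by rintro rfl; omega
  simp only [List.mem_cons, List.not_mem_nil, or_false] at h1
  omega

theorem up_kt {j w : ℕ} (hj : j < K) (h : MPref (inst K var sgn) (2 * K + j) w (2 * K + j)) :
    False := by
  rw [mpref_iff (by omega), pre_k hj] at h
  obtain ⟨h1, h2⟩ := full_lt (by simp) h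
  simp at h2

theorem up_ct {j w : ℕ} (hj : j < K) (h : MPref (inst K var sgn) j w (K + j)) : False := by
  rw [mpref_iff (by omega), pre_c hj] at h
  obtain ⟨h1, h2⟩ := full_lt (by simp) h
  simp at h2

theorem up_a {x w : ℕ} (hx : x < 3 * K) (h : MPref (inst K var sgn) (3 * K + x) w (3 * K + x)) :
    False := by
  rw [mpref_iff (by omega), pre_a hx] at h
  obtain ⟨h1, h2⟩ := full_lt (by simp) h
  simp at h2

theorem up_al {x w : ℕ} (hx : x < 3 * K) (h : MPref (inst K var sgn) (6 * K + x) w (6 * K + x)) :
    False := by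
  rw [mpref_iff (by omega), pre_al] at h
  obtain ⟨h1, h2⟩ := full_lt (by simp) h
  simp at h2

/-! ### Preferences of women -/

theorem up_d {j m : ℕ} (hj : j < K) (h : WPref (inst K var sgn) j m j) : False := by
  rw [wpref_iff (by omega), pre_d hj] at h
  obtain ⟨h1, h2⟩ := full_lt (by simp) h
  simp at h2

theorem up_d' {j m : ℕ} (hj : j < K) (h : WPref (inst K var sgn) j m (K + j)) : m = j := by
  rw [wpref_iff (by omega), pre_d hj] at h
  obtain ⟨h1, h2⟩ := full_lt (by simp) h
  have h3 : m ≠ K + j := by rintro rfl; omega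
  simp only [List.mem_cons, List.not_mem_nil, or_false] at h1
  omega

theorem up_h {j m : ℕ} (hj : j < K) (h : WPref (inst K var sgn) (K + j) m (2 * K + j)) :
    m = K + j := by
  rw [wpref_iff (by omega), pre_h hj] at h
  obtain ⟨h1, h2⟩ := full_lt (by simp) h
  simp only [List.mem_cons, List.not_mem_nil, or_false] at h1
  rw [idx_cons, idx_cons, idx_cons, idx_cons, idx_cons, idx_cons] at h2
  split_ifs at h2 <;> omega

theorem up_h' {j m : ℕ} (hj : j < K) (h : WPref (inst K var sgn) (K + j) m j) :
    m = K + j ∨ m = 2 * K + j := by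
  rw [wpref_iff (by omega), pre_h hj] at h
  obtain ⟨h1, h2⟩ := full_lt (by simp) h
  have h3 : m ≠ j := by rintro rfl; omega
  simp only [List.mem_cons, List.not_mem_nil, or_false] at h1
  omega

theorem up_ht {j m : ℕ} (hj : j < K) (h : WPref (inst K var sgn) (K + j) m (K + j)) : False := by
  rw [wpref_iff (by omega), pre_h hj] at h
  obtain ⟨h1, h2⟩ := full_lt (by simp) h
  simp at h2

theorem up_l {j m : ℕ} (hj : j < K) (h : WPref (inst K var sgn) (2 * K + j) m (K + j)) :
    False := by
  rw [wpref_iff (by omega), pre_l hj] at h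
  obtain ⟨h1, h2⟩ := full_lt (by simp) h
  simp at h2

theorem up_l' {j m : ℕ} (hj : j < K) (h : WPref (inst K var sgn) (2 * K + j) m (2 * K + j)) :
    m = K + j := by
  rw [wpref_iff (by omega), pre_l hj] at h
  obtain ⟨h1, h2⟩ := full_lt (by simp) h
  have h3 : m ≠ 2 * K + j := by rintro rfl; omega
  simp only [List.mem_cons, List.not_mem_nil, or_false] at h1
  omega

theorem up_b {x m : ℕ} (hx : x < 3 * K) (h : WPref (inst K var sgn) (3 * K + x) m (3 * K + x)) :
    False := by
  rw [wpref_iff (by omega), pre_b hx] at h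
  obtain ⟨h1, h2⟩ := full_lt (by simp) h
  simp at h2

theorem up_be {x m : ℕ} (hx : x < 3 * K) (h : WPref (inst K var sgn) (6 * K + x) m (6 * K + x)) :
    m = 3 * K + x := by
  rw [wpref_iff (by omega), pre_be] at h
  obtain ⟨h1, h2⟩ := full_lt (by simp) h
  have h3 : m ≠ 6 * K + x := by rintro rfl; omega
  simp only [List.mem_cons, List.not_mem_nil, or_false] at h1
  omega

theorem up_bet {x m : ℕ} (hx : x < 3 * K) (h : WPref (inst K var sgn) (6 * K + x) m (3 * K + x)) :
    False := by
  rw [wpref_iff (by omega), pre_be] at h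
  obtain ⟨h1, h2⟩ := full_lt (by simp) h
  simp at h2

/-! ### The top choices of the agents of a variable -/

theorem top_a {x w : ℕ} (hx : x < 3 * K) (h : w ≠ 3 * K + x) :
    MPref (inst K var sgn) (3 * K + x) (3 * K + x) w := by
  rw [mpref_iff (by omega), pre_a hx]
  refine full_of (by simp) ?_
  by_cases h2 : w = 6 * K + x
  · right
    rw [idx_cons _ (3 * K + x), if_pos rfl, idx_cons _ w, if_neg (by omega)]
    omega
  · left
    simp only [List.mem_cons, List.not_mem_nil, or_false]
    omega

theorem top_b {x m : ℕ} (hx : x < 3 * K) (h : m ≠ 3 * K + x) :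
    WPref (inst K var sgn) (3 * K + x) (3 * K + x) m := by
  rw [wpref_iff (by omega), pre_b hx]
  refine full_of (by simp) (Or.inl ?_)
  simp only [List.mem_cons, List.not_mem_nil, or_false]
  omega

end Pool.Agent.H519_RV
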