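import Pool.Agent.H519_RV.Fwd

/-!
# The states of the execution given by a satisfying assignment
-/

namespace Pool.Agent.H519_RV

open Pool.Agent.NPC

variable {K : ℕ} {var : ℕ → ℕ} {sgn : ℕ → Bool}

/-! ### Positive preferences -/

theorem pos_gh {j : ℕ} (hj : j < K) : MPref (inst K var sgn) (K + j) (K + j) (2 * K + j) := by
  rw [mpref_iff (by omega), pre_g hj]
  refine full_of (by simp) (Or.inr ?_)
  simp only [idx_cons, List.idxOf_nil]
  split_ifs <;> omega

theorem pos_gd {j : ℕ} (hj : j < K) : MPref (inst K var sgn) (K + j) j (K + j) := by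
  rw [mpref_iff (by omega), pre_g hj]
  refine full_of (by simp) (Or.inr ?_)
  simp only [idx_cons, List.idxOf_nil]
  split_ifs <;> omega

theorem pos_hg {j : ℕ} (hj : j < K) : WPref (inst K var sgn) (K + j) (K + j) (2 * K + j) := by
  rw [wpref_iff (by omega), pre_h hj]
  refine full_of (by simp) (Or.inr ?_)
  simp only [idx_cons, List.idxOf_nil]
  split_ifs <;> omega

theorem pos_be {x : ℕ} (hx : x < 3 * K) :
    WPref (inst K var sgn) (6 * K + x) (3 * K + x) (6 * K + x) := by
  rw [wpref_iff (by omega), pre_be]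
  refine full_of (by simp) (Or.inr ?_)
  simp only [idx_cons, List.idxOf_nil]
  split_ifs <;> omega

theorem lw_ge {o : ℕ} : 3 * K ≤ lw K var sgn o := by
  unfold lw; split_ifs <;> omega

theorem lw_lt (hvar : ∀ o < 3 * K, var o < 3 * K) {o : ℕ} (ho : o < 3 * K) :
    lw K var sgn o < 9 * K := by
  have := hvar o ho
  unfold lw; split_ifs <;> omega

theorem lw_mem {j r : ℕ} (hr : r < 3) : lw K var sgn (3 * j + r) ∈
    [K + j, lw K var sgn (3 * j), lw K var sgn (3 * j + 1), lw K var sgn (3 * j + 2), j] := by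
  have : r = 0 ∨ r = 1 ∨ r = 2 := by omega
  rcases this with rfl | rfl | rfl <;> simp

theorem idx_lw {j r : ℕ} (hj : j < K) (hr : r < 3) :
    [K + j, lw K var sgn (3 * j), lw K var sgn (3 * j + 1), lw K var sgn (3 * j + 2), j].idxOf
      (lw K var sgn (3 * j + r)) < 4 ∧
    0 < [K + j, lw K var sgn (3 * j), lw K var sgn (3 * j + 1), lw K var sgn (3 * j + 2), j].idxOf
      (lw K var sgn (3 * j + r)) := by
  have h0 : 3 * K ≤ lw K var sgn (3 * j + r) := lw_ge
  have : r = 0 ∨ r = 1 ∨ r = 2 := by omega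
  rcases this with rfl | rfl | rfl
  · simp only [idx_cons, List.idxOf_nil, Nat.add_zero] at h0 ⊢
    split_ifs <;> omega
  · simp only [idx_cons, List.idxOf_nil] at h0 ⊢
    split_ifs <;> omega
  · simp only [idx_cons, List.idxOf_nil] at h0 ⊢
    split_ifs <;> omega

theorem idx_last {j : ℕ} (hj : j < K) :
    [K + j, lw K var sgn (3 * j), lw K var sgn (3 * j + 1), lw K var sgn (3 * j + 2), j].idxOf
      j = 4 := by
  have h0 : ∀ o, 3 * K ≤ lw K var sgn o := fun o => lw_ge
  have h1 := h0 (3 * j)
  have h2 := h0 (3 * j + 1)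
  have h3 := h0 (3 * j + 2)
  simp only [idx_cons, List.idxOf_nil]
  rw [if_neg (by omega), if_neg (by omega), if_neg (by omega), if_neg (by omega), if_pos trivial]

theorem pos_cy {j r : ℕ} (hj : j < K) (hr : r < 3) :
    MPref (inst K var sgn) j (lw K var sgn (3 * j + r)) j := by
  rw [mpref_iff (by omega), pre_c hj]
  refine full_of (lw_mem hr) (Or.inr ?_)
  rw [idx_last hj]
  exact (idx_lw hj hr).1

theorem pos_ch {j r : ℕ} (hj : j < K) (hr : r < 3) :
    MPref (inst K var sgn) j (K + j) (lw K var sgn (3 * j + r)) := by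
  rw [mpref_iff (by omega), pre_c hj]
  refine full_of (by simp) (Or.inr ?_)
  have := (idx_lw (var := var) (sgn := sgn) hj hr).2
  rw [idx_cons _ (K + j), if_pos rfl]
  exact this

theorem up_y {j r w : ℕ} (hj : j < K) (hr : r < 3)
    (h : MPref (inst K var sgn) j w (lw K var sgn (3 * j + r))) :
    w = K + j ∨ ∃ r' < 3, w = lw K var sgn (3 * j + r') := by
  rw [mpref_iff (by omega), pre_c hj] at h
  obtain ⟨h1, h2⟩ := full_lt (lw_mem hr) h
  have h3 := (idx_lw (var := var) (sgn := sgn) hj hr).1
  have h4 : w ≠ j := by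
    rintro rfl
    rw [idx_last hj] at h2
    omega
  simp only [List.mem_cons, List.not_mem_nil, or_false] at h1
  rcases h1 with h1 | h1 | h1 | h1 | h1
  · exact Or.inl h1
  · exact Or.inr ⟨0, by omega, h1⟩
  · exact Or.inr ⟨1, by omega, h1⟩
  · exact Or.inr ⟨2, by omega, h1⟩
  · exact absurd h1 h4

theorem mem_full {n : ℕ} {P : List ℕ} {a : ℕ} (h : a < n) : a ∈ full n P := by
  unfold full
  rw [List.mem_append]
  by_cases h2 : a ∈ P
  · exact Or.inl h2
  · right
    rw [List.mem_filter, List.mem_range]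
    exact ⟨h, by simp [h2]⟩

theorem tri_m {m w w' : ℕ} (hm : m < 9 * K) (hw : w < 9 * K)
    (h : ¬ MPref (inst K var sgn) m w' w) : w' = w ∨ MPref (inst K var sgn) m w w' := by
  rw [mpref_iff hm] at h ⊢
  by_cases he : (full (9 * K) (manPre K var sgn m)).idxOf w =
      (full (9 * K) (manPre K var sgn m)).idxOf w'
  · left
    exact ((List.idxOf_inj (mem_full hw)).1 he).symm
  · right; omega

theorem tri_w {m m' w : ℕ} (hw : w < 9 * K) (hm : m < 9 * K)
    (h : ¬ WPref (inst K var sgn) w m' m) : m' = m ∨ WPref (inst K var sgn) w m m' := by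
  rw [wpref_iff hw] at h ⊢
  by_cases he : (full (9 * K) (womanPre K w)).idxOf m = (full (9 * K) (womanPre K w)).idxOf m'
  · left
    exact ((List.idxOf_inj (mem_full hm)).1 he).symm
  · right; omega

/-! ### States -/

/-- Parameters of a state: `A1`, `A2` initialised clauses, `D` clauses in the final state, `XA`, `XB`,
`YA`, `YB` the variables whose agents `a`, `b`, `α`, `β` are in `S`. -/
structure St : Type where
  A1 : Set ℕ
  A2 : Set ℕ
  D : Set ℕ
  XA : Set ℕ
  XB : Set ℕ
  YA : Set ℕ
  YB : Set ℕ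

open Classical in
/-- The partner of a man. -/
noncomputable def F (K : ℕ) (s : St) (m : ℕ) : Option ℕ :=
  if m < K then (if m ∈ s.D then some (K + m) else some m)
  else if m < 2 * K then (if m - K ∈ s.D then some (m - K) else
    if m - K ∈ s.A1 then some m else some (m + K))
  else if m < 3 * K then (if m - 2 * K ∈ s.A2 then some m else
    if m - 2 * K ∈ s.A1 then none else some (m - K))
  else if m < 6 * K then (if m - 3 * K ∈ s.XA ∧ m - 3 * K ∈ s.XB then some m else none)
  else if m < 9 * K then (if (m - 6 * K ∈ s.YA ↔ m - 6 * K ∈ s.YB) then some m else none)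
  else none

open Classical in
/-- The partner of a woman. -/
noncomputable def G (K : ℕ) (s : St) (w : ℕ) : Option ℕ :=
  if w < K then (if w ∈ s.D then some (K + w) else some w)
  else if w < 2 * K then (if w - K ∈ s.D then some (w - K) else
    if w - K ∈ s.A1 then some w else some (w + K))
  else if w < 3 * K then (if w - 2 * K ∈ s.A2 then some w else
    if w - 2 * K ∈ s.A1 then none else some (w - K))
  else if w < 6 * K then (if w - 3 * K ∈ s.XA ∧ w - 3 * K ∈ s.XB then some w else none)
  else if w < 9 * K then (if (w - 6 * K ∈ s.YA ↔ w - 6 * K ∈ s.YB) then some w else none)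
  else none

/-- The matching given by the partners of the men. -/
def gr (f : ℕ → Option ℕ) : Set (ℕ × ℕ) := {q | f q.1 = some q.2}

theorem mem_gr {f : ℕ → Option ℕ} {m w : ℕ} : (m, w) ∈ gr f ↔ f m = some w := Iff.rfl

/-- Membership in `S` of the agent number `m` of one sex. -/
def inS (K : ℕ) (D A1 A2 X Y : Set ℕ) (m : ℕ) : Prop :=
  if m < K then m ∈ D else if m < 2 * K then m - K ∈ A1 else if m < 3 * K then m - 2 * K ∈ A2
  else if m < 6 * K then m - 3 * K ∈ X else if m < 9 * K then m - 6 * K ∈ Y else False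

/-- The set `S`. -/
def SS (K : ℕ) (s : St) : Set Person := {p | match p with
  | Sum.inl m => inS K s.D s.A1 s.A2 s.XA s.YA m
  | Sum.inr w => inS K s.D s.A1 s.A2 s.XB s.YB w}

theorem inlS {s : St} {m : ℕ} : Sum.inl m ∈ SS K s ↔ inS K s.D s.A1 s.A2 s.XA s.YA m := Iff.rfl

theorem inrS {s : St} {w : ℕ} : Sum.inr w ∈ SS K s ↔ inS K s.D s.A1 s.A2 s.XB s.YB w := Iff.rfl

theorem kinds {m : ℕ} (hm : m < 9 * K) : (∃ j < K, m = j) ∨ (∃ j < K, m = K + j) ∨
    (∃ j < K, m = 2 * K + j) ∨ (∃ x < 3 * K, m = 3 * K + x) ∨ (∃ x < 3 * K, m = 6 * K + x) := by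
  by_cases h1 : m < K
  · exact Or.inl ⟨m, h1, rfl⟩
  · by_cases h2 : m < 2 * K
    · exact Or.inr (Or.inl ⟨m - K, by omega, by omega⟩)
    · by_cases h3 : m < 3 * K
      · exact Or.inr (Or.inr (Or.inl ⟨m - 2 * K, by omega, by omega⟩))
      · by_cases h4 : m < 6 * K
        · exact Or.inr (Or.inr (Or.inr (Or.inl ⟨m - 3 * K, by omega, by omega⟩)))
        · exact Or.inr (Or.inr (Or.inr (Or.inr ⟨m - 6 * K, by omega, by omega⟩)))

section Eval

variable {s : St} {D A1 A2 X Y : Set ℕ}

theorem inS_c {j : ℕ} (hj : j < K) : inS K D A1 A2 X Y j ↔ j ∈ D := by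
  unfold inS; rw [if_pos hj]

theorem inS_g {j : ℕ} (hj : j < K) : inS K D A1 A2 X Y (K + j) ↔ j ∈ A1 := by
  unfold inS; rw [if_neg (by omega), if_pos (by omega), Nat.add_sub_cancel_left]

theorem inS_k {j : ℕ} (hj : j < K) : inS K D A1 A2 X Y (2 * K + j) ↔ j ∈ A2 := by
  unfold inS
  rw [if_neg (by omega), if_neg (by omega), if_pos (by omega), Nat.add_sub_cancel_left]

theorem inS_a {x : ℕ} (hx : x < 3 * K) : inS K D A1 A2 X Y (3 * K + x) ↔ x ∈ X := by
  unfold inS
  rw [if_neg (by omega), if_neg (by omega), if_neg (by omega), if_pos (by omega),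
    Nat.add_sub_cancel_left]

theorem inS_al {x : ℕ} (hx : x < 3 * K) : inS K D A1 A2 X Y (6 * K + x) ↔ x ∈ Y := by
  unfold inS
  rw [if_neg (by omega), if_neg (by omega), if_neg (by omega), if_neg (by omega),
    if_pos (by omega), Nat.add_sub_cancel_left]

theorem inS_lt {m : ℕ} (h : inS K D A1 A2 X Y m) : m < 9 * K := by
  unfold inS at h
  split_ifs at h <;> omega

open Classical in
theorem F_c {j : ℕ} (hj : j < K) : F K s j = if j ∈ s.D then some (K + j) else some j := by
  unfold F; rw [if_pos hj]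

open Classical in
theorem F_g {j : ℕ} (hj : j < K) : F K s (K + j) =
    if j ∈ s.D then some j else if j ∈ s.A1 then some (K + j) else some (2 * K + j) := by
  unfold F
  rw [if_neg (by omega), if_pos (by omega), Nat.add_sub_cancel_left]
  have : K + j + K = 2 * K + j := by omega
  rw [this]

open Classical in
theorem F_k {j : ℕ} (hj : j < K) : F K s (2 * K + j) =
    if j ∈ s.A2 then some (2 * K + j) else if j ∈ s.A1 then none else some (K + j) := by
  unfold F
  rw [if_neg (by omega), if_neg (by omega), if_pos (by omega), Nat.add_sub_cancel_left]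
  have : 2 * K + j - K = K + j := by omega
  rw [this]

open Classical in
theorem F_a {x : ℕ} (hx : x < 3 * K) : F K s (3 * K + x) =
    if x ∈ s.XA ∧ x ∈ s.XB then some (3 * K + x) else none := by
  unfold F
  rw [if_neg (by omega), if_neg (by omega), if_neg (by omega), if_pos (by omega),
    Nat.add_sub_cancel_left]

open Classical in
theorem F_al {x : ℕ} (hx : x < 3 * K) : F K s (6 * K + x) =
    if (x ∈ s.YA ↔ x ∈ s.YB) then some (6 * K + x) else none := by
  unfold F
  rw [if_neg (by omega), if_neg (by omega), if_neg (by omega), if_neg (by omega),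
    if_pos (by omega), Nat.add_sub_cancel_left]

theorem F_out {m : ℕ} (hm : ¬ m < 9 * K) : F K s m = none := by
  unfold F
  rw [if_neg (by omega), if_neg (by omega), if_neg (by omega), if_neg (by omega), if_neg hm]

open Classical in
theorem G_c {j : ℕ} (hj : j < K) : G K s j = if j ∈ s.D then some (K + j) else some j := by
  unfold G; rw [if_pos hj]

open Classical in
theorem G_g {j : ℕ} (hj : j < K) : G K s (K + j) =
    if j ∈ s.D then some j else if j ∈ s.A1 then some (K + j) else some (2 * K + j) := by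
  unfold G
  rw [if_neg (by omega), if_pos (by omega), Nat.add_sub_cancel_left]
  have : K + j + K = 2 * K + j := by omega
  rw [this]

open Classical in
theorem G_k {j : ℕ} (hj : j < K) : G K s (2 * K + j) =
    if j ∈ s.A2 then some (2 * K + j) else if j ∈ s.A1 then none else some (K + j) := by
  unfold G
  rw [if_neg (by omega), if_neg (by omega), if_pos (by omega), Nat.add_sub_cancel_left]
  have : 2 * K + j - K = K + j := by omega
  rw [this]

open Classical in
theorem G_a {x : ℕ} (hx : x < 3 * K) : G K s (3 * K + x) =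
    if x ∈ s.XA ∧ x ∈ s.XB then some (3 * K + x) else none := by
  unfold G
  rw [if_neg (by omega), if_neg (by omega), if_neg (by omega), if_pos (by omega),
    Nat.add_sub_cancel_left]

open Classical in
theorem G_al {x : ℕ} (hx : x < 3 * K) : G K s (6 * K + x) =
    if (x ∈ s.YA ↔ x ∈ s.YB) then some (6 * K + x) else none := by
  unfold G
  rw [if_neg (by omega), if_neg (by omega), if_neg (by omega), if_neg (by omega),
    if_pos (by omega), Nat.add_sub_cancel_left]

end Eval

/-- The sets of clauses are nested. -/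
def Nest (s : St) : Prop := s.D ⊆ s.A2 ∧ s.A2 ⊆ s.A1

theorem FG {s : St} (hs : Nest s) {m w : ℕ} (h : F K s m = some w) : G K s w = some m := by
  classical
  have hm : m < 9 * K := by
    by_contra hn
    rw [F_out hn] at h
    simp at h
  rcases kinds hm with ⟨j, hj, rfl⟩ | ⟨j, hj, rfl⟩ | ⟨j, hj, rfl⟩ | ⟨x, hx, rfl⟩ | ⟨x, hx, rfl⟩
  · rw [F_c hj] at h
    by_cases h1 : m ∈ s.D
    · rw [if_pos h1] at h
      obtain rfl := Option.some.inj h
      rw [G_g hj, if_pos h1]
    · rw [if_neg h1] at h
      obtain rfl := Option.some.inj h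
      rw [G_c hj, if_neg h1]
  · rw [F_g hj] at h
    by_cases h1 : j ∈ s.D
    · rw [if_pos h1] at h
      obtain rfl := Option.some.inj h
      rw [G_c hj, if_pos h1]
    · rw [if_neg h1] at h
      by_cases h2 : j ∈ s.A1
      · rw [if_pos h2] at h
        obtain rfl := Option.some.inj h
        rw [G_g hj, if_neg h1, if_pos h2]
      · rw [if_neg h2] at h
        obtain rfl := Option.some.inj h
        rw [G_k hj, if_neg (fun h => h2 (hs.2 h)), if_neg h2]
  · rw [F_k hj] at h
    by_cases h1 : j ∈ s.A2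
    · rw [if_pos h1] at h
      obtain rfl := Option.some.inj h
      rw [G_k hj, if_pos h1]
    · rw [if_neg h1] at h
      by_cases h2 : j ∈ s.A1
      · rw [if_pos h2] at h
        simp at h
      · rw [if_neg h2] at h
        obtain rfl := Option.some.inj h
        rw [G_g hj, if_neg (fun h => h1 (hs.1 h)), if_neg h2]
  · rw [F_a hx] at h
    by_cases h1 : x ∈ s.XA ∧ x ∈ s.XB
    · rw [if_pos h1] at h
      obtain rfl := Option.some.inj h
      rw [G_a hx, if_pos h1]
    · rw [if_neg h1] at h
      simp at h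
  · rw [F_al hx] at h
    by_cases h1 : (x ∈ s.YA ↔ x ∈ s.YB)
    · rw [if_pos h1] at h
      obtain rfl := Option.some.inj h
      rw [G_al hx, if_pos h1]
    · rw [if_neg h1] at h
      simp at h

theorem F_inj {s : St} (hs : Nest s) {m m' w : ℕ} (h : F K s m = some w)
    (h' : F K s m' = some w) : m = m' := by
  have h1 := FG hs h
  rw [FG hs h'] at h1
  exact (Option.some.inj h1).symm

end Pool.Agent.H519_RV
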