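import Pool.Agent.H519_RV.Upd

/-!
# The transitions of the execution given by a satisfying assignment
-/

namespace Pool.Agent.H519_RV

open Pool.Agent.NPC Function Relation

variable {K : ℕ} {var : ℕ → ℕ} {sgn : ℕ → Bool}

/-- The pair (matching, set `S`) of a state. -/
noncomputable def st (K : ℕ) (s : St) : Set (ℕ × ℕ) × Set Person := (gr (F K s), SS K s)

/-- A closed state. -/
structure Closed (s : St) : Prop where
  nest : Nest s
  hX : s.XA = s.XB
  hY : s.YA = s.YB
  hYX : s.YB ⊆ s.XA

theorem Closed.no {s : St} (hs : Closed s) (m w : ℕ)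
    (hb : Blocks (inst K var sgn) (gr (F K s)) m w) :
    (Sum.inl m ∈ SS K s ↔ Sum.inr w ∈ SS K s) := closed_no hs.nest hs.hX hs.hY hs.hYX m w hb

theorem nG {s : St} (hs : Nest s) {m w : ℕ} (h : G K s w = none) : F K s m ≠ some w := by
  intro h'
  rw [FG hs h'] at h
  simp at h

/-! ### Phase 0 -/

theorem stepA {s : St} (hs : Closed s) {j : ℕ} (hj : j < K) (h : j ∉ s.A1) :
    Step (inst K var sgn) (st K s) (st K { s with A1 := insert j s.A1 }) := by
  classical
  have hA2 : j ∉ s.A2 := fun h' => h (hs.nest.2 h')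
  have hD : j ∉ s.D := fun h' => hA2 (hs.nest.1 h')
  have hc : F K s (2 * K + j) = some (K + j) := by rw [F_k hj, if_neg hA2, if_neg h]
  have hg : F K s (K + j) = some (2 * K + j) := by rw [F_g hj, if_neg hD, if_neg h]
  have hu : ∀ m', F K s m' = some (K + j) → m' = 2 * K + j := fun m' h' =>
    F_inj hs.nest h' hc
  have hb : Blocks (inst K var sgn) (gr (F K s)) (K + j) (K + j) := by
    refine ⟨by rw [size_inst]; omega, by rw [size_inst]; omega, ?_, ?_, ?_⟩
    · rw [mem_gr, hg]
      intro h'
      have := Option.some.inj h'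
      omega
    · intro w' h'
      rw [mem_gr, hg] at h'
      rw [← Option.some.inj h']
      exact pos_gh hj
    · intro m' h'
      rw [hu m' h']
      exact pos_hg hj
  have hm : Sum.inl (K + j) ∉ SS K s := by rw [inlS, inS_g hj]; exact h
  have hw : Sum.inr (K + j) ∉ SS K s := by rw [inrS, inS_g hj]; exact h
  have h1 := Step.two hs.no hb hm hw
  rw [gr_two' hc hu, ← F_A1 s hj hA2 hD, ← SS_A1 s hj] at h1
  exact h1

theorem stepB {s : St} (hs : Closed s) {j : ℕ} (hj : j < K) (h1 : j ∈ s.A1) (h : j ∉ s.A2) :
    Step (inst K var sgn) (st K s) (st K { s with A2 := insert j s.A2 }) := by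
  classical
  have hD : j ∉ s.D := fun h' => h (hs.nest.1 h')
  have hk : F K s (2 * K + j) = none := by rw [F_k hj, if_neg h, if_pos h1]
  have hl : G K s (2 * K + j) = none := by rw [G_k hj, if_neg h, if_pos h1]
  have hu : ∀ m', F K s m' ≠ some (2 * K + j) := fun m' => nG hs.nest hl
  have hb : Blocks (inst K var sgn) (gr (F K s)) (2 * K + j) (2 * K + j) := by
    refine ⟨by rw [size_inst]; omega, by rw [size_inst]; omega, hu _, ?_, ?_⟩
    · intro w' h'
      rw [mem_gr, hk] at h'
      simp at h'
    · intro m' h'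
      exact absurd h' (hu m')
  have hm : Sum.inl (2 * K + j) ∉ SS K s := by rw [inlS, inS_k hj]; exact h
  have hw : Sum.inr (2 * K + j) ∉ SS K s := by rw [inrS, inS_k hj]; exact h
  have h1 := Step.two hs.no hb hm hw
  rw [gr_two hu, ← F_A2 s hj, ← SS_A2 s hj] at h1
  exact h1

/-! ### The first two rounds for a true variable -/

theorem stepT {s : St} (hs : Closed s) {x : ℕ} (hx : x < 3 * K) (hXA : x ∉ s.XA)
    (hYB : x ∉ s.YB) : ReflTransGen (Step (inst K var sgn)) (st K s)
      (st K { s with XA := insert x s.XA, XB := insert x s.XB, YB := insert x s.YB }) := by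
  classical
  have hXB : x ∉ s.XB := by rw [← hs.hX]; exact hXA
  have hYA : x ∉ s.YA := by rw [hs.hY]; exact hYB
  have hal : F K s (6 * K + x) = some (6 * K + x) := by
    rw [F_al hx, if_pos ⟨fun h => absurd h hYA, fun h => absurd h hYB⟩]
  have ha : F K s (3 * K + x) = none := by rw [F_a hx, if_neg fun h => hXA h.1]
  have hu : ∀ m', F K s m' = some (6 * K + x) → m' = 6 * K + x := fun m' h' =>
    F_inj hs.nest h' hal
  have hb : Blocks (inst K var sgn) (gr (F K s)) (3 * K + x) (6 * K + x) := by
    refine ⟨by rw [size_inst]; omega, by rw [size_inst]; omega, ?_, ?_, ?_⟩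
    · rw [mem_gr, ha]
      simp
    · intro w' h'
      rw [mem_gr, ha] at h'
      simp at h'
    · intro m' h'
      rw [hu m' h']
      exact pos_be hx
  have hm : Sum.inl (3 * K + x) ∉ SS K s := by rw [inlS, inS_a hx]; exact hXA
  have hw : Sum.inr (6 * K + x) ∉ SS K s := by rw [inrS, inS_al hx]; exact hYB
  have h1 := Step.two hs.no hb hm hw
  rw [gr_two' hal hu, ← F_YB s hx hYA, ← SS_YB s hx] at h1
  have e1 := F_XA_same (K := K) { s with YB := insert x s.YB } hXB
  have e2 := SS_XA (K := K) { s with YB := insert x s.YB } hx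
  rw [← e1, ← e2] at h1
  set s1 : St := { s with XA := insert x s.XA, YB := insert x s.YB } with hs1
  change Step (inst K var sgn) (st K s)
    (gr (update (F K s1) (3 * K + x) (some (6 * K + x))), SS K s1) at h1
  refine (ReflTransGen.single h1).trans ?_
  -- second round
  have n1 : Nest s1 := hs.nest
  have g1 : G K s1 (3 * K + x) = none := by rw [G_a hx, if_neg fun h => hXB h.2]
  have g2 : G K s1 (6 * K + x) = none := by
    rw [G_al hx, if_neg]
    intro h
    exact hYA (h.2 (Set.mem_insert _ _))
  have f1 : ∀ m', update (F K s1) (3 * K + x) (some (6 * K + x)) m' ≠ some (3 * K + x) := by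
    intro m'
    by_cases hm' : m' = 3 * K + x
    · subst hm'
      rw [update_self]
      intro h
      have := Option.some.inj h
      omega
    · rw [update_of_ne hm']
      exact nG n1 g1
  have hw2 : Sum.inr (3 * K + x) ∉ SS K s1 := by rw [inrS, inS_a hx]; exact hXB
  have hm2 : Sum.inl (3 * K + x) ∈ SS K s1 := by rw [inlS, inS_a hx]; exact Set.mem_insert _ _
  have hb2 : Blocks (inst K var sgn) (gr (update (F K s1) (3 * K + x) (some (6 * K + x))))
      (3 * K + x) (3 * K + x) := by
    refine ⟨by rw [size_inst]; omega, by rw [size_inst]; omega, f1 _, ?_, ?_⟩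
    · intro w' h'
      rw [mem_gr, update_self] at h'
      rw [← Option.some.inj h']
      exact top_a hx (by omega)
    · intro m' h'
      exact absurd h' (f1 m')
  have e3 : insert (Sum.inr (3 * K + x)) (SS K s1) =
      SS K { s with XA := insert x s.XA, XB := insert x s.XB, YB := insert x s.YB } :=
    (SS_XB (K := K) s1 hx).symm
  have e4 : insert (3 * K + x, 3 * K + x) (gr (update (F K s1) (3 * K + x) (some (6 * K + x))) \
      {(3 * K + x, 6 * K + x)}) =
      gr (F K { s with XA := insert x s.XA, XB := insert x s.XB, YB := insert x s.YB }) := by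
    rw [gr_swapW (update_self _ _ _), update_idem]
    exact congrArg gr (F_XB (K := K) s1 hx (Set.mem_insert _ _)).symm
  refine ReflTransGen.single ?_
  unfold st
  rw [← e3]
  refine Step.oneW hw2 hm2 hb2 ?_
  rw [gr_delW f1]
  refine Inner.womanSwap (m := 3 * K + x) (w' := 6 * K + x)
    (blocksIn_of (Set.mem_insert_of_mem _ hm2) (Set.mem_insert _ _) hb2) ?_ ?_ ?_
  · intro m' hb'
    have hm' : m' < 9 * K := by
      have := hb'.2.2.1
      rwa [size_inst] at this
    exact tri_w (w := 3 * K + x) (m := 3 * K + x) (by omega) (by omega)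
      fun h => up_b (var := var) (sgn := sgn) hx h
  · rw [mem_gr, update_self]
  · rw [e4, e3]
    refine Inner.stopW ?_
    refine no_blockIn_high (K := K)
      (s := { s with XA := insert x s.XA, XB := insert x s.XB, YB := insert x s.YB })
      hs.nest ?_ ?_ (by omega)
    · change insert x s.XA ⊆ insert x s.XB
      rw [hs.hX]
    · change s.YA ⊆ insert x s.YB
      rw [hs.hY]
      exact Set.subset_insert _ _

/-! ### Clauses -/

/-- An open state: the woman `y` in `S` is unmatched, the others in `S` above `3 K` are matched. -/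
structure Op (K : ℕ) (s : St) (y : ℕ) : Prop where
  nest : Nest s
  hX : s.XA ⊆ s.XB
  hY : s.YA ⊆ s.YB
  un : G K s y = none
  mem : Sum.inr y ∈ SS K s
  ge : 3 * K ≤ y
  lt : y < 9 * K
  oX : ∀ x < 3 * K, x ∈ s.XB → 3 * K + x ≠ y → x ∈ s.XA
  oY : ∀ x < 3 * K, x ∈ s.YB → 6 * K + x ≠ y → x ∈ s.YA

/-- The state in which the man `j` is matched to the woman `y`. -/
noncomputable def wst (K : ℕ) (s : St) (j y : ℕ) : Set (ℕ × ℕ) × Set Person :=
  (gr (update (F K s) j (some y)), insert (Sum.inl j) (SS K s))

theorem no_better {s : St} {j y w' r : ℕ} (hj : j < K) (hr : r < 3)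
    (hvar : ∀ o < 3 * K, var o < 3 * K) (hy : y = lw K var sgn (3 * j + r)) (hA : j ∈ s.A1) (hD : j ∉ s.D)
    (oX : ∀ x < 3 * K, x ∈ s.XB → 3 * K + x ≠ y → x ∈ s.XA)
    (oY : ∀ x < 3 * K, x ∈ s.YB → 6 * K + x ≠ y → x ∈ s.YA)
    {f : ℕ → Option ℕ} (hf : ∀ m, m ≠ j → f m = F K s m) (hne : w' ≠ y)
    (hb : BlocksIn (inst K var sgn) (insert (Sum.inl j) (SS K s)) (gr f) j w')
    (hp : MPref (inst K var sgn) j w' y) : False := by
  classical
  subst hy
  rcases up_y hj hr hp with rfl | ⟨r', hr', rfl⟩
  · have h1 : WPref (inst K var sgn) (K + j) j (K + j) := by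
      refine bprefW hb ?_ (Set.mem_insert_of_mem _ ?_)
      · rw [hf _ (by omega), F_g hj, if_neg hD, if_pos hA]
      · rw [inlS, inS_g hj]; exact hA
    exact up_ht hj h1
  · have ho : 3 * j + r' < 3 * K := by omega
    have hv := hvar _ ho
    have hmem : Sum.inr (lw K var sgn (3 * j + r')) ∈ SS K s := by
      have := hb.2.1
      rw [Set.mem_insert_iff] at this
      exact this.resolve_left (by simp)
    by_cases hs : sgn (3 * j + r') = true
    · have e : lw K var sgn (3 * j + r') = 6 * K + var (3 * j + r') := by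
        unfold lw; rw [if_pos hs]
      rw [e] at hmem hb hne
      rw [inrS, inS_al hv] at hmem
      have hYA := oY _ hv hmem hne
      have h1 : WPref (inst K var sgn) (6 * K + var (3 * j + r')) j
          (6 * K + var (3 * j + r')) := by
        refine bprefW hb ?_ (Set.mem_insert_of_mem _ ?_)
        · rw [hf _ (by omega), F_al hv, if_pos ⟨fun _ => hmem, fun _ => hYA⟩]
        · rw [inlS, inS_al hv]; exact hYA
      have := up_be hv h1
      omega
    · have e : lw K var sgn (3 * j + r') = 3 * K + var (3 * j + r') := by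
        unfold lw; rw [if_neg hs]
      rw [e] at hmem hb hne
      rw [inrS, inS_a hv] at hmem
      have hXA := oX _ hv hmem hne
      have h1 : WPref (inst K var sgn) (3 * K + var (3 * j + r')) j
          (3 * K + var (3 * j + r')) := by
        refine bprefW hb ?_ (Set.mem_insert_of_mem _ ?_)
        · rw [hf _ (by omega), F_a hv, if_pos ⟨hXA, hmem⟩]
        · rw [inlS, inS_a hv]; exact hXA
      exact up_b hv h1

/-- The man `j` enters and takes the open woman. -/
theorem stepC {s : St} {j y r : ℕ} (hj : j < K) (hr : r < 3) (hvar : ∀ o < 3 * K, var o < 3 * K)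
    (hs : Op K s y) (hy : y = lw K var sgn (3 * j + r)) (hA : j ∈ s.A1) (hD : j ∉ s.D) :
    Step (inst K var sgn) (st K s) (wst K s j y) := by
  classical
  have hyl := hs.lt
  have hyg := hs.ge
  have hm : Sum.inl j ∉ SS K s := by rw [inlS, inS_c hj]; exact hD
  have hcj : F K s j = some j := by rw [F_c hj, if_neg hD]
  have hny : ∀ m', F K s m' ≠ some y := fun m' => nG hs.nest hs.un
  have hb : Blocks (inst K var sgn) (gr (F K s)) j y := by
    refine ⟨by rw [size_inst]; omega, by rw [size_inst]; omega, hny _, ?_, ?_⟩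
    · intro w' h'
      rw [mem_gr, hcj] at h'
      rw [← Option.some.inj h', hy]
      exact pos_cy hj hr
    · intro m' h'
      exact absurd h' (hny m')
  have f1 : ∀ m', update (F K s) j none m' ≠ some y := by
    intro m'
    by_cases hm' : m' = j
    · subst hm'
      rw [update_self]
      simp
    · rw [update_of_ne hm']
      exact hny m'
  have hb1 : Blocks (inst K var sgn) (gr (update (F K s) j none)) j y := by
    refine ⟨hb.1, hb.2.1, f1 _, ?_, ?_⟩
    · intro w' h'
      rw [mem_gr, update_self] at h'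
      simp at h'
    · intro m' h'
      exact absurd h' (f1 m')
  unfold st wst
  refine Step.oneM hm hs.mem hb ?_
  rw [gr_delM]
  refine Inner.manFree (w := y)
    (blocksIn_of (Set.mem_insert _ _) (Set.mem_insert_of_mem _ hs.mem) hb1) ?_ f1 ?_
  · intro w' hb'
    by_cases hw' : w' = y
    · exact Or.inl hw'
    · refine tri_m (by omega) hyl fun hp => ?_
      exact no_better hj hr hvar hy hA hD hs.oX hs.oY
        (fun m hm => update_of_ne hm _ _) hw' hb' hp
  · rw [gr_free (update_self _ _ _), update_idem]
    refine Inner.stopM ?_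
    intro w' hb'
    have hw' : w' ≠ y := by
      rintro rfl
      exact hb'.2.2.2.2.1 (mem_res.2 ⟨update_self _ _ _, hb'.1, hb'.2.1⟩)
    have hp : MPref (inst K var sgn) j w' y :=
      bprefM hb' (update_self _ _ _) (Set.mem_insert_of_mem _ hs.mem)
    exact no_better hj hr hvar hy hA hD hs.oX hs.oY
      (fun m hm => update_of_ne hm _ _) hw' hb' hp

theorem asymM {m w w' : ℕ} (hm : m < 9 * K) (h : MPref (inst K var sgn) m w w')
    (h' : MPref (inst K var sgn) m w' w) : False := by
  rw [mpref_iff hm] at h h'
  omega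

/-- The woman `j` enters: the clause reaches its final state and the woman `y` is open again. -/
theorem stepD {s : St} {j y r : ℕ} (hj : j < K) (hr : r < 3)
    (hn : Nest s) (hX : s.XA ⊆ s.XB) (hY : s.YA ⊆ s.YB) (un : G K s y = none)
    (mem : Sum.inr y ∈ SS K s) (hyg : 3 * K ≤ y) (hyl : y < 9 * K)
    (hy : y = lw K var sgn (3 * j + r)) (hA : j ∈ s.A2) (hD : j ∉ s.D) :
    Step (inst K var sgn) (wst K s j y) (st K { s with D := insert j s.D }) := by
  classical
  have hA1 : j ∈ s.A1 := hn.2 hA
  have hcj : F K s j = some j := by rw [F_c hj, if_neg hD]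
  have hg : F K s (K + j) = some (K + j) := by rw [F_g hj, if_neg hD, if_pos hA1]
  have hk : F K s (2 * K + j) = some (2 * K + j) := by rw [F_k hj, if_pos hA]
  have hny : ∀ m', F K s m' ≠ some y := fun m' => nG hn un
  have hu : ∀ m', F K s m' = some j → m' = j := fun m' h' => F_inj hn h' hcj
  have hu2 : ∀ m', F K s m' = some (K + j) → m' = K + j := fun m' h' => F_inj hn h' hg
  have hwj : Sum.inr j ∉ SS K s := by rw [inrS, inS_c hj]; exact hD
  have hmg : Sum.inl (K + j) ∈ SS K s := by rw [inlS, inS_g hj]; exact hA1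
  have hwh : Sum.inr (K + j) ∈ SS K s := by rw [inrS, inS_g hj]; exact hA1
  have hmk : Sum.inl (2 * K + j) ∈ SS K s := by rw [inlS, inS_k hj]; exact hA
  have hwl : Sum.inr (2 * K + j) ∈ SS K s := by rw [inrS, inS_k hj]; exact hA
  set f0 := update (F K s) j (some y) with hf0
  have f0j : f0 j = some y := update_self _ _ _
  have f0g : f0 (K + j) = some (K + j) := by rw [hf0, update_of_ne (by omega), hg]
  have n0 : ∀ m', f0 m' ≠ some j := by
    intro m'
    by_cases hm' : m' = j
    · subst hm'
      rw [f0j]
      intro h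
      have := Option.some.inj h
      omega
    · rw [hf0, update_of_ne hm']
      exact fun h => hm' (hu m' h)
  have hb : Blocks (inst K var sgn) (gr f0) (K + j) j := by
    refine ⟨by rw [size_inst]; omega, by rw [size_inst]; omega, n0 _, ?_, ?_⟩
    · intro w' h'
      rw [mem_gr, f0g] at h'
      rw [← Option.some.inj h']
      exact pos_gd hj
    · intro m' h'
      exact absurd h' (n0 m')
  have w1 : Sum.inr j ∉ insert (Sum.inl j) (SS K s) := by
    rw [Set.mem_insert_iff]
    rintro (h | h)
    · simp at h
    · exact hwj h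
  have e0 : insert (Sum.inr j) (insert (Sum.inl j) (SS K s)) =
      SS K { s with D := insert j s.D } := by
    rw [SS_D s hj, Set.insert_comm]
  unfold wst st
  rw [← e0]
  set S' := insert (Sum.inr j) (insert (Sum.inl j) (SS K s)) with hS'
  have sub : ∀ p, p ∈ SS K s → p ∈ S' := fun p hp =>
    Set.mem_insert_of_mem _ (Set.mem_insert_of_mem _ hp)
  have cj' : Sum.inl j ∈ S' := Set.mem_insert_of_mem _ (Set.mem_insert _ _)
  have dj' : Sum.inr j ∈ S' := Set.mem_insert _ _
  refine Step.oneW w1 (Set.mem_insert_of_mem _ hmg) hb ?_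
  rw [gr_delW n0]
  -- the woman `j` takes the man `K + j`
  refine Inner.womanSwap (m := K + j) (w' := K + j) (blocksIn_of (sub _ hmg) dj' hb) ?_ f0g ?_
  · intro m' hb'
    have hm' : m' < 9 * K := by
      have := hb'.2.2.1
      rwa [size_inst] at this
    refine tri_w (w := j) (m := K + j) (by omega) (by omega) fun h => ?_
    have hmj := up_d' hj h
    subst hmj
    have h1 : MPref (inst K var sgn) m' m' y := bprefM hb' f0j (sub _ mem)
    rw [hy] at h1
    exact asymM (by omega) h1 (pos_cy hj hr)
  rw [gr_swapW f0g]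
  set f1 := update f0 (K + j) (some j) with hf1
  have f1g : f1 (K + j) = some j := update_self _ _ _
  have f1j : f1 j = some y := by rw [hf1, update_of_ne (by omega), f0j]
  have f1k : f1 (2 * K + j) = some (2 * K + j) := by
    rw [hf1, update_of_ne (by omega), hf0, update_of_ne (by omega), hk]
  have n1 : ∀ m', f1 m' ≠ some (K + j) := by
    intro m'
    by_cases hm' : m' = K + j
    · subst hm'
      rw [f1g]
      intro h
      have := Option.some.inj h
      omega
    · rw [hf1, update_of_ne hm']
      by_cases hm2 : m' = j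
      · subst hm2
        rw [f0j]
        intro h
        have := Option.some.inj h
        omega
      · rw [hf0, update_of_ne hm2]
        exact fun h => hm' (hu2 m' h)
  have hb1 : Blocks (inst K var sgn) (gr f1) j (K + j) := by
    refine ⟨by rw [size_inst]; omega, by rw [size_inst]; omega, n1 _, ?_, ?_⟩
    · intro w' h'
      rw [mem_gr, f1j] at h'
      rw [← Option.some.inj h', hy]
      exact pos_ch hj hr
    · intro m' h'
      exact absurd h' (n1 m')
  refine Inner.womanSwap (m := j) (w' := y) (blocksIn_of cj' (sub _ hwh) hb1) ?_ f1j ?_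
  · intro m' hb'
    have hm' : m' < 9 * K := by
      have := hb'.2.2.1
      rwa [size_inst] at this
    refine tri_w (w := K + j) (m := j) (by omega) (by omega) fun h => ?_
    rcases up_h' hj h with rfl | rfl
    · exact up_gt hj (bprefM hb' f1g dj')
    · exact up_kt hj (bprefM hb' f1k (sub _ hwl))
  rw [gr_swapW f1j]
  have e1 : update f1 j (some (K + j)) = F K { s with D := insert j s.D } := by
    rw [F_D s hj, hf1, hf0, update_comm (by omega : j ≠ K + j), update_idem]
    rw [update_comm (by omega : K + j ≠ j)]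
  rw [e1, ← hS', e0]
  refine Inner.stopW ?_
  refine no_blockIn_high (K := K) (s := { s with D := insert j s.D }) ⟨?_, hn.2⟩ hX hY hyg
  change insert j s.D ⊆ s.A2
  intro i hi
  rcases hi with rfl | hi
  · exact hA
  · exact hn.1 hi

end Pool.Agent.H519_RV
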