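import Pool.Agent.H519_RV.Bwd

/-!
# Changes of the parameters of a state
-/

namespace Pool.Agent.H519_RV

open Pool.Agent.NPC Function

variable {K : ℕ} {var : ℕ → ℕ} {sgn : ℕ → Bool}

theorem outl {m : ℕ} (hm : ¬ m < 9 * K) (t : St) : Sum.inl m ∉ SS K t :=
  fun h => hm (inS_lt (inlS.1 h))

theorem outr {m : ℕ} (hm : ¬ m < 9 * K) (t : St) : Sum.inr m ∉ SS K t :=
  fun h => hm (inS_lt (inrS.1 h))

theorem SS_D (s : St) {j : ℕ} (hj : j < K) :
    SS K { s with D := insert j s.D } =
      insert (Sum.inl j) (insert (Sum.inr j) (SS K s)) := by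
  refine ext_S (K := K) ?_ ?_ ?_ ?_ ?_ ?_
  · intro m hm
    have a3 : m ≠ j := by omega
    simp [outl hm, outr hm, a3]
  · intro i hi
    simp [inlS, inrS, inS_c hi]
  · intro i hi
    have a3 : K + i ≠ j := by omega
    simp [a3, inlS, inrS, inS_g hi]
  · intro i hi
    have a3 : 2 * K + i ≠ j := by omega
    simp [a3, inlS, inrS, inS_k hi]
  · intro i hi
    have a3 : 3 * K + i ≠ j := by omega
    simp [a3, inlS, inrS, inS_a hi]
  · intro i hi
    have a3 : 6 * K + i ≠ j := by omega
    simp [a3, inlS, inrS, inS_al hi]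

theorem SS_A1 (s : St) {j : ℕ} (hj : j < K) :
    SS K { s with A1 := insert j s.A1 } =
      insert (Sum.inl (K + j)) (insert (Sum.inr (K + j)) (SS K s)) := by
  refine ext_S (K := K) ?_ ?_ ?_ ?_ ?_ ?_
  · intro m hm
    have a3 : m ≠ (K + j) := by omega
    simp [outl hm, outr hm, a3]
  · intro i hi
    have a3 : i ≠ (K + j) := by omega
    simp [a3, inlS, inrS, inS_c hi]
  · intro i hi
    simp [inlS, inrS, inS_g hi]
  · intro i hi
    have a3 : 2 * K + i ≠ (K + j) := by omega
    simp [a3, inlS, inrS, inS_k hi]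
  · intro i hi
    have a3 : 3 * K + i ≠ (K + j) := by omega
    simp [a3, inlS, inrS, inS_a hi]
  · intro i hi
    have a3 : 6 * K + i ≠ (K + j) := by omega
    simp [a3, inlS, inrS, inS_al hi]

theorem SS_A2 (s : St) {j : ℕ} (hj : j < K) :
    SS K { s with A2 := insert j s.A2 } =
      insert (Sum.inl (2 * K + j)) (insert (Sum.inr (2 * K + j)) (SS K s)) := by
  refine ext_S (K := K) ?_ ?_ ?_ ?_ ?_ ?_
  · intro m hm
    have a3 : m ≠ (2 * K + j) := by omega
    simp [outl hm, outr hm, a3]
  · intro i hi
    have a3 : i ≠ (2 * K + j) := by omega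
    simp [a3, inlS, inrS, inS_c hi]
  · intro i hi
    have a3 : K + i ≠ (2 * K + j) := by omega
    simp [a3, inlS, inrS, inS_g hi]
  · intro i hi
    simp [inlS, inrS, inS_k hi]
  · intro i hi
    have a3 : 3 * K + i ≠ (2 * K + j) := by omega
    simp [a3, inlS, inrS, inS_a hi]
  · intro i hi
    have a3 : 6 * K + i ≠ (2 * K + j) := by omega
    simp [a3, inlS, inrS, inS_al hi]

theorem SS_XA (s : St) {x : ℕ} (hx : x < 3 * K) :
    SS K { s with XA := insert x s.XA } =
      insert (Sum.inl (3 * K + x)) (SS K s) := by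
  refine ext_S (K := K) ?_ ?_ ?_ ?_ ?_ ?_
  · intro m hm
    have a3 : m ≠ (3 * K + x) := by omega
    simp [outl hm, outr hm, a3]
  · intro i hi
    have a3 : i ≠ (3 * K + x) := by omega
    simp [a3, inlS, inrS, inS_c hi]
  · intro i hi
    have a3 : K + i ≠ (3 * K + x) := by omega
    simp [a3, inlS, inrS, inS_g hi]
  · intro i hi
    have a3 : 2 * K + i ≠ (3 * K + x) := by omega
    simp [a3, inlS, inrS, inS_k hi]
  · intro i hi
    simp [inlS, inrS, inS_a hi]
  · intro i hi
    have a3 : 6 * K + i ≠ (3 * K + x) := by omega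
    simp [a3, inlS, inrS, inS_al hi]

theorem SS_XB (s : St) {x : ℕ} (hx : x < 3 * K) :
    SS K { s with XB := insert x s.XB } =
      insert (Sum.inr (3 * K + x)) (SS K s) := by
  refine ext_S (K := K) ?_ ?_ ?_ ?_ ?_ ?_
  · intro m hm
    have a3 : m ≠ (3 * K + x) := by omega
    simp [outl hm, outr hm, a3]
  · intro i hi
    have a3 : i ≠ (3 * K + x) := by omega
    simp [a3, inlS, inrS, inS_c hi]
  · intro i hi
    have a3 : K + i ≠ (3 * K + x) := by omega
    simp [a3, inlS, inrS, inS_g hi]
  · intro i hi
    have a3 : 2 * K + i ≠ (3 * K + x) := by omega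
    simp [a3, inlS, inrS, inS_k hi]
  · intro i hi
    simp [inlS, inrS, inS_a hi]
  · intro i hi
    have a3 : 6 * K + i ≠ (3 * K + x) := by omega
    simp [a3, inlS, inrS, inS_al hi]

theorem SS_YA (s : St) {x : ℕ} (hx : x < 3 * K) :
    SS K { s with YA := insert x s.YA } =
      insert (Sum.inl (6 * K + x)) (SS K s) := by
  refine ext_S (K := K) ?_ ?_ ?_ ?_ ?_ ?_
  · intro m hm
    have a3 : m ≠ (6 * K + x) := by omega
    simp [outl hm, outr hm, a3]
  · intro i hi
    have a3 : i ≠ (6 * K + x) := by omega
    simp [a3, inlS, inrS, inS_c hi]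
  · intro i hi
    have a3 : K + i ≠ (6 * K + x) := by omega
    simp [a3, inlS, inrS, inS_g hi]
  · intro i hi
    have a3 : 2 * K + i ≠ (6 * K + x) := by omega
    simp [a3, inlS, inrS, inS_k hi]
  · intro i hi
    have a3 : 3 * K + i ≠ (6 * K + x) := by omega
    simp [a3, inlS, inrS, inS_a hi]
  · intro i hi
    simp [inlS, inrS, inS_al hi]

theorem SS_YB (s : St) {x : ℕ} (hx : x < 3 * K) :
    SS K { s with YB := insert x s.YB } =
      insert (Sum.inr (6 * K + x)) (SS K s) := by
  refine ext_S (K := K) ?_ ?_ ?_ ?_ ?_ ?_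
  · intro m hm
    have a3 : m ≠ (6 * K + x) := by omega
    simp [outl hm, outr hm, a3]
  · intro i hi
    have a3 : i ≠ (6 * K + x) := by omega
    simp [a3, inlS, inrS, inS_c hi]
  · intro i hi
    have a3 : K + i ≠ (6 * K + x) := by omega
    simp [a3, inlS, inrS, inS_g hi]
  · intro i hi
    have a3 : 2 * K + i ≠ (6 * K + x) := by omega
    simp [a3, inlS, inrS, inS_k hi]
  · intro i hi
    have a3 : 3 * K + i ≠ (6 * K + x) := by omega
    simp [a3, inlS, inrS, inS_a hi]
  · intro i hi
    simp [inlS, inrS, inS_al hi]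

theorem F_D (s : St) {j : ℕ} (hj : j < K) :
    F K { s with D := insert j s.D } =
      update (update (F K s) j (some (K + j))) (K + j) (some j) := by
  classical
  refine ext_men (K := K) ?_ ?_ ?_ ?_ ?_ ?_
  · intro m hm
    rw [F_out hm, update_of_ne (by omega), update_of_ne (by omega), F_out hm]
  · intro i hi
    by_cases hij : i = j
    · subst hij
      rw [F_c hi, update_of_ne (by omega), update_self]
      simp [*]
    · rw [F_c hi, update_of_ne (by omega), update_of_ne (by omega), F_c hi]
      simp [hij]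
  · intro i hi
    by_cases hij : i = j
    · subst hij
      rw [F_g hi, update_self]
      simp [*]
    · rw [F_g hi, update_of_ne (by omega), update_of_ne (by omega), F_g hi]
      simp [hij]
  · intro i hi
    rw [F_k hi, update_of_ne (by omega), update_of_ne (by omega), F_k hi]
  · intro i hi
    rw [F_a hi, update_of_ne (by omega), update_of_ne (by omega), F_a hi]
  · intro i hi
    rw [F_al hi, update_of_ne (by omega), update_of_ne (by omega), F_al hi]

theorem F_A1 (s : St) {j : ℕ} (hj : j < K) (h1 : j ∉ s.A2) (h2 : j ∉ s.D) :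
    F K { s with A1 := insert j s.A1 } =
      update (update (F K s) (2 * K + j) none) (K + j) (some (K + j)) := by
  classical
  refine ext_men (K := K) ?_ ?_ ?_ ?_ ?_ ?_
  · intro m hm
    rw [F_out hm, update_of_ne (by omega), update_of_ne (by omega), F_out hm]
  · intro i hi
    rw [F_c hi, update_of_ne (by omega), update_of_ne (by omega), F_c hi]
  · intro i hi
    by_cases hij : i = j
    · subst hij
      rw [F_g hi, update_self]
      simp [*]
    · rw [F_g hi, update_of_ne (by omega), update_of_ne (by omega), F_g hi]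
      simp [hij]
  · intro i hi
    by_cases hij : i = j
    · subst hij
      rw [F_k hi, update_of_ne (by omega), update_self]
      simp [*]
    · rw [F_k hi, update_of_ne (by omega), update_of_ne (by omega), F_k hi]
      simp [hij]
  · intro i hi
    rw [F_a hi, update_of_ne (by omega), update_of_ne (by omega), F_a hi]
  · intro i hi
    rw [F_al hi, update_of_ne (by omega), update_of_ne (by omega), F_al hi]

theorem F_A2 (s : St) {j : ℕ} (hj : j < K) :
    F K { s with A2 := insert j s.A2 } =
      update (F K s) (2 * K + j) (some (2 * K + j)) := by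
  classical
  refine ext_men (K := K) ?_ ?_ ?_ ?_ ?_ ?_
  · intro m hm
    rw [F_out hm, update_of_ne (by omega), F_out hm]
  · intro i hi
    rw [F_c hi, update_of_ne (by omega), F_c hi]
  · intro i hi
    rw [F_g hi, update_of_ne (by omega), F_g hi]
  · intro i hi
    by_cases hij : i = j
    · subst hij
      rw [F_k hi, update_self]
      simp [*]
    · rw [F_k hi, update_of_ne (by omega), F_k hi]
      simp [hij]
  · intro i hi
    rw [F_a hi, update_of_ne (by omega), F_a hi]
  · intro i hi
    rw [F_al hi, update_of_ne (by omega), F_al hi]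

theorem F_XA (s : St) {x : ℕ} (hx : x < 3 * K) (h1 : x ∈ s.XB) :
    F K { s with XA := insert x s.XA } =
      update (F K s) (3 * K + x) (some (3 * K + x)) := by
  classical
  refine ext_men (K := K) ?_ ?_ ?_ ?_ ?_ ?_
  · intro m hm
    rw [F_out hm, update_of_ne (by omega), F_out hm]
  · intro i hi
    rw [F_c hi, update_of_ne (by omega), F_c hi]
  · intro i hi
    rw [F_g hi, update_of_ne (by omega), F_g hi]
  · intro i hi
    rw [F_k hi, update_of_ne (by omega), F_k hi]
  · intro i hi
    by_cases hij : i = x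
    · subst hij
      rw [F_a hi, update_self]
      simp [*]
    · rw [F_a hi, update_of_ne (by omega), F_a hi]
      simp [hij]
  · intro i hi
    rw [F_al hi, update_of_ne (by omega), F_al hi]

theorem F_XB (s : St) {x : ℕ} (hx : x < 3 * K) (h1 : x ∈ s.XA) :
    F K { s with XB := insert x s.XB } =
      update (F K s) (3 * K + x) (some (3 * K + x)) := by
  classical
  refine ext_men (K := K) ?_ ?_ ?_ ?_ ?_ ?_
  · intro m hm
    rw [F_out hm, update_of_ne (by omega), F_out hm]
  · intro i hi
    rw [F_c hi, update_of_ne (by omega), F_c hi]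
  · intro i hi
    rw [F_g hi, update_of_ne (by omega), F_g hi]
  · intro i hi
    rw [F_k hi, update_of_ne (by omega), F_k hi]
  · intro i hi
    by_cases hij : i = x
    · subst hij
      rw [F_a hi, update_self]
      simp [*]
    · rw [F_a hi, update_of_ne (by omega), F_a hi]
      simp [hij]
  · intro i hi
    rw [F_al hi, update_of_ne (by omega), F_al hi]

theorem F_YA (s : St) {x : ℕ} (hx : x < 3 * K) (h1 : x ∈ s.YB) :
    F K { s with YA := insert x s.YA } =
      update (F K s) (6 * K + x) (some (6 * K + x)) := by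
  classical
  refine ext_men (K := K) ?_ ?_ ?_ ?_ ?_ ?_
  · intro m hm
    rw [F_out hm, update_of_ne (by omega), F_out hm]
  · intro i hi
    rw [F_c hi, update_of_ne (by omega), F_c hi]
  · intro i hi
    rw [F_g hi, update_of_ne (by omega), F_g hi]
  · intro i hi
    rw [F_k hi, update_of_ne (by omega), F_k hi]
  · intro i hi
    rw [F_a hi, update_of_ne (by omega), F_a hi]
  · intro i hi
    by_cases hij : i = x
    · subst hij
      rw [F_al hi, update_self]
      simp [*]
    · rw [F_al hi, update_of_ne (by omega), F_al hi]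
      simp [hij]

theorem F_YB (s : St) {x : ℕ} (hx : x < 3 * K) (h1 : x ∉ s.YA) :
    F K { s with YB := insert x s.YB } =
      update (F K s) (6 * K + x) none := by
  classical
  refine ext_men (K := K) ?_ ?_ ?_ ?_ ?_ ?_
  · intro m hm
    rw [F_out hm, update_of_ne (by omega), F_out hm]
  · intro i hi
    rw [F_c hi, update_of_ne (by omega), F_c hi]
  · intro i hi
    rw [F_g hi, update_of_ne (by omega), F_g hi]
  · intro i hi
    rw [F_k hi, update_of_ne (by omega), F_k hi]
  · intro i hi
    rw [F_a hi, update_of_ne (by omega), F_a hi]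
  · intro i hi
    by_cases hij : i = x
    · subst hij
      rw [F_al hi, update_self]
      simp [*]
    · rw [F_al hi, update_of_ne (by omega), F_al hi]
      simp [hij]

theorem F_XA_same (s : St) {x : ℕ} (h1 : x ∉ s.XB) :
    F K { s with XA := insert x s.XA } = F K s := by
  classical
  refine ext_men (K := K) ?_ ?_ ?_ ?_ ?_ ?_
  · intro m hm
    rw [F_out hm, F_out hm]
  · intro i hi
    rw [F_c hi, F_c hi]
  · intro i hi
    rw [F_g hi, F_g hi]
  · intro i hi
    rw [F_k hi, F_k hi]
  · intro i hi
    rw [F_a hi, F_a hi]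
    by_cases hij : i = x
    · subst hij
      simp [h1]
    · simp [hij]
  · intro i hi
    rw [F_al hi, F_al hi]

theorem F_XB_same (s : St) {x : ℕ} (h1 : x ∉ s.XA) :
    F K { s with XB := insert x s.XB } = F K s := by
  classical
  refine ext_men (K := K) ?_ ?_ ?_ ?_ ?_ ?_
  · intro m hm
    rw [F_out hm, F_out hm]
  · intro i hi
    rw [F_c hi, F_c hi]
  · intro i hi
    rw [F_g hi, F_g hi]
  · intro i hi
    rw [F_k hi, F_k hi]
  · intro i hi
    rw [F_a hi, F_a hi]
    by_cases hij : i = x
    · subst hij
      simp [h1]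
    · simp [hij]
  · intro i hi
    rw [F_al hi, F_al hi]

end Pool.Agent.H519_RV
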